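import Mathlib
import Pool.Agent.Lib.Pf72953.DBasis

/-!
Module Pf72953v.Diff: Jacobians of families related by a matrix; differentials of elements algebraic
over a subfield.
-/

set_option autoImplicit false
set_option linter.style.haveILetI false

open KaehlerDifferential Module Polynomial
open Pf72953

namespace Pf72953.Var

theorem jac_of_linear {k K ι : Type*} [Field k] [CharZero k] [Field K] [Algebra k K] [Fintype ι]
    [DecidableEq ι] {c : ι → K} (hc : IsTranscendenceBasis k c) {a a' : ι → K} (T : Matrix ι ι K)
    (h : ∀ j, D k K (a j) = ∑ i, T i j • D k K (a' i)) : jac hc a = T.det * jac hc a' := by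
  have h1 : (Matrix.of fun i j => pd hc i (a j)) =
      (Matrix.of fun i j => pd hc i (a' j)) * T := by
    ext i j
    rw [Matrix.mul_apply]
    simp only [Matrix.of_apply]
    rw [pd_apply, h j, map_sum, Finsupp.finsetSum_apply]
    refine Finset.sum_congr rfl fun l _ => ?_
    rw [map_smul, Finsupp.smul_apply, smul_eq_mul, pd_apply, mul_comm]
  rw [jac_eq_det, jac_eq_det, h1, Matrix.det_mul, mul_comm]

theorem D_algebraMap_eq {k B L ι : Type*} [Field k] [CharZero k] [Field B] [Field L] [Algebra k B]
    [Algebra k L] [Algebra B L] [IsScalarTower k B L] [Fintype ι] {cB : ι → B}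
    (hB : IsTranscendenceBasis k cB) (b : B) :
    D k L (algebraMap B L b) =
      ∑ i, algebraMap B L (pd hB i b) • D k L (algebraMap B L (cB i)) := by
  rw [← KaehlerDifferential.map_D k k B L, D_eq_sum hB b, map_sum]
  refine Finset.sum_congr rfl fun i _ => ?_
  rw [LinearMap.map_smul, KaehlerDifferential.map_D, algebraMap_smul]

theorem exists_D_of_isAlgebraic {k B L ι : Type*} [Field k] [CharZero k] [Field B] [Field L]
    [Algebra k B] [Algebra k L] [Algebra B L] [IsScalarTower k B L] [Fintype ι] {cB : ι → B}
    (hB : IsTranscendenceBasis k cB) {b : L} (hb : IsAlgebraic B b) :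
    ∃ ρ : ι → L, D k L b = ∑ i, ρ i • D k L (algebraMap B L (cB i)) := by
  classical
  set N : Submodule L Ω[L⁄k] :=
    Submodule.span L (Set.range fun i => D k L (algebraMap B L (cB i))) with hN
  -- the derivation with values in the quotient
  let d0 : Derivation k L (Ω[L⁄k] ⧸ N) := (N.mkQ).compDer (D k L)
  have hd0 : ∀ c : B, d0 (algebraMap B L c) = 0 := by
    intro c
    change N.mkQ (D k L (algebraMap B L c)) = 0
    rw [Submodule.mkQ_apply, Submodule.Quotient.mk_eq_zero, D_algebraMap_eq hB c]
    exact Submodule.sum_mem _ fun i _ => Submodule.smul_mem _ _ (Submodule.subset_span ⟨i, rfl⟩)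
  let d : Derivation B L (Ω[L⁄k] ⧸ N) :=
    { toFun := d0
      map_add' := d0.map_add
      map_smul' := by
        intro r x
        rw [Algebra.smul_def, Derivation.leibniz, hd0, smul_zero, add_zero, RingHom.id_apply,
          algebraMap_smul]
      map_one_eq_zero' := d0.map_one_eq_zero
      leibniz' := d0.leibniz }
  have hbi : IsIntegral B b := hb.isIntegral
  haveI : CharZero B := charZero_of_injective_algebraMap (algebraMap k B).injective
  have hsep : (minpoly B b).Separable := (minpoly.irreducible hbi).separable
  have h1 : d (aeval b (minpoly B b)) = aeval b (derivative (minpoly B b)) • d b :=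
    Derivation.map_aeval d (minpoly B b) b
  rw [minpoly.aeval, map_zero] at h1
  have h2 : aeval b (derivative (minpoly B b)) ≠ 0 := by
    intro h0
    obtain ⟨u, v, huv⟩ := hsep
    have := congrArg (aeval b) huv
    rw [map_add, map_mul, map_mul, h0, minpoly.aeval, mul_zero, mul_zero, add_zero, map_one] at this
    exact zero_ne_one this
  have h3 : d b = 0 := by
    rcases smul_eq_zero.mp h1.symm with h | h
    · exact absurd h h2
    · exact h
  have h4 : D k L b ∈ N := by
    have : N.mkQ (D k L b) = 0 := h3
    rwa [Submodule.mkQ_apply, Submodule.Quotient.mk_eq_zero] at this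
  rw [hN, Submodule.mem_span_range_iff_exists_fun] at h4
  obtain ⟨c, hc⟩ := h4
  exact ⟨c, hc.symm⟩

end Pf72953.Var
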