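import Mathlib
import Pool.Agent.Lib.Pf72953.Core

/-!
Iitaka's inequality with varying hyperplane covers: definitions.

`L` is a field containing `B`; a family `H a`, `a ∈ A`, of linear forms in `n + 1` homogeneous
coordinates, with coefficients in `L` (algebraic over `B`), is evaluated at a point with affine
coordinates `u : Fin n → L`, i.e. at `(1, u)`.
-/

set_option autoImplicit false
set_option linter.style.haveILetI false

open scoped WithZero
open Pf72953

namespace Pf72953.Var

section arr

variable {K A : Type*} [Field K] {n : ℕ}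

/-- the value at the point `(1, u)` of the linear form with coefficients `H a` -/
def lin (H : A → Fin (n + 1) → K) (u : Fin n → K) (a : A) : K :=
  H a 0 + ∑ j : Fin n, H a j.succ * u j

/-- bracket: the determinant of the coefficients of `n + 1` linear forms -/
def brk (H : A → Fin (n + 1) → K) (J : Fin (n + 1) → A) : K :=
  Matrix.det (Matrix.of fun r c => H (J r) c)

/-- the coefficient (up to sign) of the logarithmic form `dlog (ℓ₁/ℓ₀) ∧ ⋯ ∧ dlog (ℓₙ/ℓ₀)`,
`ℓ_r = ℓ_{J r}`, with respect to `du₁ ∧ ⋯ ∧ duₙ` -/
def gam (H : A → Fin (n + 1) → K) (u : Fin n → K) (J : Fin (n + 1) → A) : K :=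
  brk H J / ∏ r, lin H u (J r)

/-- number of occurrences of `a` in the tuple `J` -/
def occ [DecidableEq A] (J : Fin (n + 1) → A) (a : A) : ℕ :=
  (Finset.univ.filter fun r => J r = a).card

end arr

section cond

variable (B : Type*) {L A : Type*} [Field B] [Field L] [Algebra B L] {n : ℕ}

/-- linear forms with coefficients algebraic over `B`, in general position -/
structure GenPos (H : A → Fin (n + 1) → L) : Prop where
  /-- the coefficients are algebraic over `B` -/
  alg : ∀ a j, IsAlgebraic B (H a j)
  /-- any `n + 1` of the forms are linearly independent -/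
  brk_ne : ∀ J : Fin (n + 1) → A, Function.Injective J → brk H J ≠ 0

/-- The orbifold condition with weights `1 - δ a / N`: for every discrete valuation `w` of `L`
trivial on `B`, if `b` is an index with `w (ℓ_b)` maximal and not all `w (ℓ_a)` are equal to
`w (ℓ_b)`, then `∏ w (ℓ_a / ℓ_b) ^ δ_a ≤ w t ^ N` for some `t` with `w t < 1`. -/
def OrbCond [Fintype A] (H : A → Fin (n + 1) → L) (u : Fin n → L) (N : ℕ) (δ : A → ℕ) : Prop :=
  ∀ w : Valuation L ℤᵐ⁰, (∀ b : B, b ≠ 0 → w (algebraMap B L b) = 1) →
    ∀ b, (∀ a, w (lin H u a) ≤ w (lin H u b)) → (∃ a, w (lin H u a) < w (lin H u b)) →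
      ∃ t : L, w t < 1 ∧ ∏ a, w (lin H u a / lin H u b) ^ δ a ≤ w t ^ N

/-- relative `m`-forms `G (du₁ ∧ ⋯ ∧ duₙ)^m` of the arrangement, with logarithmic norm `≤ 1` at all
divisorial valuations of `L` (the norm is computed by the maximal logarithmic form `gam H u J`) and
norm at most `w t ^ m`, `t` a uniformizer, if `w` is trivial on `B` and the `w (ℓ_a)` are not all
equal. -/
def ArrReg (k : Type*) [Field k] [Algebra k L] (H : A → Fin (n + 1) → L) (u : Fin n → L)
    (m : ℕ) : Set L :=
  {G | ∀ w : Valuation L ℤᵐ⁰, IsDivisorial k L w → ∀ J : Fin (n + 1) → A, Function.Injective J →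
    (∀ J' : Fin (n + 1) → A, Function.Injective J' → w (gam H u J') ≤ w (gam H u J)) →
    w G ≤ w (gam H u J) ^ m ∧
    ((∀ b : B, b ≠ 0 → w (algebraMap B L b) = 1) →
      (∃ a a', w (lin H u a) ≠ w (lin H u a')) →
      ∀ t, IsUnif w t → w G ≤ (w (gam H u J) * w t) ^ m)}

end cond

section tot

variable {B F L ιB ιF I : Type*} [Field B] [Field F] [Field L] [Algebra B L] [Algebra F L]
  {n : I → ℕ}

/-- the total family: coordinates of the base, of the constant factor, of the covers -/
def tot (x : ιB → B) (y : ιF → F) (u : ∀ i, Fin (n i) → L) :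
    ιB ⊕ (ιF ⊕ (Σ i, Fin (n i))) → L :=
  Sum.elim (fun i => algebraMap B L (x i))
    (Sum.elim (fun j => algebraMap F L (y j)) (fun s => u s.1 s.2))

end tot

section good

variable {k E L ι : Type*} [Field k] [CharZero k] [Field E] [Field L] [Algebra k E] [Algebra k L]
  [Algebra E L] [Fintype ι] [DecidableEq ι]

/-- `U (da)^m` is regular at all valuations of `L` lying over divisorial valuations of `E`, the
regularity being measured by regular bases of `E` -/
def GoodL (k E : Type*) {L ι : Type*} [Field k] [CharZero k] [Field E] [Field L] [Algebra k E]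
    [Algebra k L] [Algebra E L] [Fintype ι] [DecidableEq ι] (a : ι → L) (m : ℕ) : Set L :=
  {U | ∀ w : Valuation L ℤᵐ⁰, IsDivisorial k E (w.comap (algebraMap E L)) →
    ∀ (c : ι → E) (t : E), Adapted k (w.comap (algebraMap E L)) c t →
      IsUnif (w.comap (algebraMap E L)) t →
      ∀ htb : IsTranscendenceBasis k (fun i => algebraMap E L (c i)),
        w U * w (jac htb a) ^ m ≤ 1}

/-- the ratios of good forms -/
def Ratios (k E : Type*) {L ι : Type*} [Field k] [CharZero k] [Field E] [Field L] [Algebra k E]
    [Algebra k L] [Algebra E L] [Fintype ι] [DecidableEq ι] (a : ι → L) : Set L :=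
  {θ | ∃ m : ℕ, 1 ≤ m ∧ ∃ U ∈ GoodL k E a m, U ≠ 0 ∧ θ * U ∈ GoodL k E a m}

end good

end Pf72953.Var
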