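import Mathlib
import Pool.Agent.Lib.Pf72953.Core
import Pool.Agent.Lib.Pf72953v.Defs
import Pool.Agent.Lib.Pf72953v.NormV

/-!
Module Pf72953v.CoreAbs: from ratios of good forms to the Kodaira dimension.

Sketch.
`GoodL.add`, `GoodL.smul`: as `WReg.add`, `WReg.smul` (for `smul`: constants have value `≤ 1`, by
`IsDivisorial.const` for `w.comap (algebraMap E L)` and `IsScalarTower k E L`).
`of_ratios`: common denominator `f₀ = g₀ * ∏ j, g j` (`g₀` from `h0`), weight `m₀ + ∑ j, m j ≥ 1`;
`ψ i * f₀ = g₀ * (ψ i * g i) * ∏ j ≠ i, g j`; membership by multiplicativity of `WReg` (weights add; prove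
`WReg.mul`), then `KodairaGE.of_coord`.
`of_good`: let `z : ι → E` be a transcendence basis (`exists_tb` and `hcard`), `hz` its image in `L`
(`IsTranscendenceBasis.algebraMap_comp`), `J = jac hz a ≠ 0` (`jac_ne_zero ha hz`), `r = finrank E L`.
Let `S = {ψ : E | ∃ m ≥ 1, ∃ g ∈ WReg k z m, g ≠ 0 ∧ ψ * g ∈ WReg k z m}`, `SL` its image in `L`.  For
`θ ∈ Ratios k E a` with `m, U` and every natural number `l`: `(θ + l) * U` is good (`GoodL.add`, `smul`), so
`norm (U * J ^ m)` and `norm ((θ + l) * U * J ^ m) = norm (θ + l) * norm (U * J ^ m)` are in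
`WReg k z (m * r)` (`norm_mem_WReg_of_good`), i.e. `norm (θ + l) ∈ S`; by `isAlgebraic_of_norm` `θ` is
algebraic over `Algebra.adjoin k SL`.  `exists_indep_in_set` gives `c` algebraically independent elements of
`SL`, pull back to `E` (as at the end of `KodairaGE.core`) and apply `of_ratios`.
-/

set_option autoImplicit false
set_option linter.style.haveILetI false

open scoped WithZero
open Polynomial
open Pf72953

namespace Pf72953.Var

section good

variable {k E L ι : Type*} [Field k] [CharZero k] [Field E] [Field L]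
  [Algebra k E] [Algebra k L] [Algebra E L] [IsScalarTower k E L]
  [Fintype ι] [DecidableEq ι]

omit [IsScalarTower k E L] in
theorem GoodL.add {a : ι → L} {m : ℕ} {U V : L} (hU : U ∈ GoodL k E a m)
    (hV : V ∈ GoodL k E a m) : U + V ∈ GoodL k E a m := by
  intro w hw c t hc ht htb
  have h1 := hU w hw c t hc ht htb
  have h2 := hV w hw c t hc ht htb
  rcases le_max_iff.mp (w.map_add U V) with h | h
  · exact (mul_le_mul' h le_rfl).trans h1
  · exact (mul_le_mul' h le_rfl).trans h2

theorem GoodL.smul {a : ι → L} {m : ℕ} {U : L} (hU : U ∈ GoodL k E a m) (l : k) :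
    algebraMap k L l * U ∈ GoodL k E a m := by
  intro w hw c t hc ht htb
  have h1 := hU w hw c t hc ht htb
  have h2 : w (algebraMap k L l) ≤ 1 := by
    rcases eq_or_ne l 0 with rfl | hl
    · simp
    · have := hw.const l hl
      rw [Valuation.comap_apply, ← IsScalarTower.algebraMap_apply] at this
      exact this.le
  rw [map_mul, mul_assoc]
  exact mul_le_one' h2 h1

omit [IsScalarTower k E L] in
theorem GoodL.mul {a : ι → L} {m m' : ℕ} {U V : L} (hU : U ∈ GoodL k E a m)
    (hV : V ∈ GoodL k E a m') : U * V ∈ GoodL k E a (m + m') := by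
  intro w hw c t hc ht htb
  have h1 := hU w hw c t hc ht htb
  have h2 := hV w hw c t hc ht htb
  rw [map_mul, pow_add, mul_mul_mul_comm]
  exact mul_le_one' h1 h2

end good

section wreg

variable {k K ι : Type*} [Field k] [CharZero k] [Field K] [Algebra k K] [Fintype ι]
  [DecidableEq ι]

theorem WReg.mul {z : ι → K} {m m' : ℕ} {f g : K} (hf : f ∈ WReg k z m) (hg : g ∈ WReg k z m') :
    f * g ∈ WReg k z (m + m') := by
  intro w hw c hc
  have h1 := hf w hw c hc
  have h2 := hg w hw c hc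
  rw [map_mul, pow_add, mul_mul_mul_comm]
  exact mul_le_one' h1 h2

theorem WReg.prod {z : ι → K} {κ : Type*} (s : Finset κ) {m : κ → ℕ} {f : κ → K}
    (hf : ∀ i ∈ s, f i ∈ WReg k z (m i)) : ∏ i ∈ s, f i ∈ WReg k z (∑ i ∈ s, m i) := by
  intro w hw c hc
  rw [map_prod, ← Finset.prod_pow_eq_pow_sum, ← Finset.prod_mul_distrib]
  exact Finset.prod_le_one' fun i hi => hf i hi w hw c hc

end wreg

theorem of_ratios {k E : Type*} [Field k] [CharZero k] [Field E] [Algebra k E]
    [Algebra.EssFiniteType k E] {z : Fin (dimension k E) → E} (hz : IsTranscendenceBasis k z)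
    {c : ℕ} {ψ : Fin c → E} (hψ : AlgebraicIndependent k ψ)
    (h : ∀ i, ∃ m : ℕ, 1 ≤ m ∧ ∃ g ∈ WReg k z m, g ≠ 0 ∧ ψ i * g ∈ WReg k z m)
    (h0 : ∃ m : ℕ, 1 ≤ m ∧ ∃ g ∈ WReg k z m, g ≠ 0) : KodairaGE k E c := by
  classical
  choose m hm g hg hgne hψg using h
  obtain ⟨m₀, hm₀, g₀, hg₀, hg₀ne⟩ := h0
  refine KodairaGE.of_coord hz (m := m₀ + ∑ i, m i) (by omega) (f₀ := g₀ * ∏ i, g i)
    (WReg.mul hg₀ (WReg.prod _ fun i _ => hg i))
    (mul_ne_zero hg₀ne (Finset.prod_ne_zero_iff.mpr fun i _ => hgne i)) hψ fun i => ?_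
  have h1 : ψ i * (g₀ * ∏ j, g j) =
      g₀ * ∏ j, (if j = i then ψ j * g j else g j) := by
    rw [← Finset.mul_prod_erase Finset.univ g (Finset.mem_univ i),
      ← Finset.mul_prod_erase Finset.univ (fun j => if j = i then ψ j * g j else g j)
        (Finset.mem_univ i)]
    have h2 : ∏ j ∈ Finset.univ.erase i, (if j = i then ψ j * g j else g j) =
        ∏ j ∈ Finset.univ.erase i, g j := by
      refine Finset.prod_congr rfl fun j hj => ?_
      rw [if_neg (Finset.ne_of_mem_erase hj)]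
    rw [h2, if_pos rfl]
    ring
  rw [h1]
  refine WReg.mul hg₀ (WReg.prod _ fun j _ => ?_)
  by_cases hj : j = i
  · rw [if_pos hj]; exact hψg j
  · rw [if_neg hj]; exact hg j

theorem of_good {k E L ι : Type*} [Field k] [CharZero k] [Field E] [Field L]
    [Algebra k E] [Algebra k L] [Algebra E L] [IsScalarTower k E L]
    [Fintype ι] [DecidableEq ι] [Algebra.EssFiniteType k E] [Algebra.EssFiniteType k L]
    [FiniteDimensional E L] [IsGalois E L] {a : ι → L} (ha : IsTranscendenceBasis k a)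
    {c : ℕ} {θ : Fin c → L} (hθ : AlgebraicIndependent k θ) (hθa : ∀ i, θ i ∈ Ratios k E a)
    (h1 : (1 : L) ∈ Ratios k E a) : KodairaGE k E c := by
  classical
  -- bases
  obtain ⟨zE, hzE⟩ := exists_tb k E
  have hdimL : dimension k E = dimension k L := by
    have h1 : IsTranscendenceBasis k (algebraMap E L ∘ zE) := hzE.algebraMap_comp
    have h2 := card_eq_of_isTranscendenceBasis h1
    rwa [Fintype.card_fin] at h2
  have hcardι : Fintype.card ι = dimension k E :=
    (card_eq_of_isTranscendenceBasis ha).trans hdimL.symm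
  let e : Fin (dimension k E) ≃ ι := (Fintype.equivFinOfCardEq hcardι).symm
  set z : ι → E := zE ∘ e.symm with hzdef
  have hz : IsTranscendenceBasis k z := (isTranscendenceBasis_equiv e.symm).mpr hzE
  have hzL : IsTranscendenceBasis k (fun i => algebraMap E L (z i)) := hz.algebraMap_comp
  have hze : z ∘ e = zE := by funext i; simp [hzdef]
  set r := Module.finrank E L with hr
  have hrpos : 0 < r := Module.finrank_pos
  set J := jac hzL a with hJ
  have hJne : J ≠ 0 := jac_ne_zero ha hzL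
  set S : Set E := {ψ | ∃ m : ℕ, 1 ≤ m ∧ ∃ g ∈ WReg k z m, g ≠ 0 ∧ ψ * g ∈ WReg k z m} with hS
  have key : ∀ θ' ∈ Ratios k E a, ∀ l : ℕ,
      Algebra.norm E (θ' + algebraMap k L (l : k)) ∈ S := by
    rintro θ' ⟨m, hm, U, hU, hUne, hθU⟩ l
    have h2 : (θ' + algebraMap k L (l : k)) * U ∈ GoodL k E a m := by
      rw [add_mul]
      exact GoodL.add hθU (GoodL.smul hU _)
    have h3 := norm_mem_WReg_of_good hU hz hzL
    have h4 := norm_mem_WReg_of_good h2 hz hzL
    refine ⟨m * r, Nat.one_le_iff_ne_zero.mpr (Nat.mul_ne_zero (by omega) hrpos.ne'), _, h3,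
      (Algebra.norm_ne_zero_iff).mpr (mul_ne_zero hUne (pow_ne_zero _ hJne)), ?_⟩
    rw [← map_mul, ← mul_assoc]
    exact h4
  set SL : Set L := algebraMap E L '' S with hSL
  have hθalg : ∀ i, IsAlgebraic (Algebra.adjoin k SL) (θ i) := fun i =>
    isAlgebraic_of_norm (E := E) _ _ fun l =>
      Algebra.subset_adjoin ⟨_, key (θ i) (hθa i) l, rfl⟩
  obtain ⟨ψ, hψ, hψS⟩ := exists_indep_in_set SL θ hθ hθalg
  choose ψ' hψ'S hψ' using hψS
  have hψ'ind : AlgebraicIndependent k ψ' := by
    have h1 : (fun i => algebraMap E L (ψ' i)) = ψ := funext hψ'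
    rw [← h1] at hψ
    exact (AlgHom.algebraicIndependent_iff (IsScalarTower.toAlgHom k E L)
      (algebraMap E L).injective).mp hψ
  refine of_ratios hzE hψ'ind (fun i => ?_) ?_
  · obtain ⟨m, hm, g, hg, hgne, hψg⟩ := hψ'S i
    refine ⟨m, hm, g, ?_, hgne, ?_⟩
    · rw [← hze]; exact WReg.reindex hg e
    · rw [← hze]; exact WReg.reindex hψg e
  · obtain ⟨m, hm, g, hg, hgne, -⟩ := key 1 h1 0
    exact ⟨m, hm, g, by rw [← hze]; exact WReg.reindex hg e, hgne⟩

end Pf72953.Var
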