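import Mathlib
import Pool.Agent.Lib.Pf72953.Core
import Pool.Agent.Lib.Pf72953v.Defs

/-!
Module Pf72953v.Indep: transcendence bases and algebraically independent families of `L`.

Sketch.
`tot_tb`: as `Pf72953.sumElim_tb` (`Pool/Agent/Lib/Pf72953/Core.lean`): `L` is algebraic over
`Algebra.adjoin k (range (tot x y u))` (`IsAlgebraic.adjoin_of_forall_isAlgebraic`, `isAlgebraic_transport`) and
the cardinality is right (`Algebra.IsAlgebraic.isTranscendenceBasis_of_lift_le_trdeg_of_finite`).
`tot_indep`: let `B₁ = algebraicClosure B L` (an intermediate field of `L/B`), `dimension k B₁ = dimension k B`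
(a transcendence basis of `B` is one of `B₁`).  Extend `ξ` to a transcendence basis of `B₁` and `η` to one of
`F` (as in `sumElim_indep`), and consider the family consisting of these two bases, of the `ζ i r` for `i ∈ s`
and of the `u i r` for `i ∉ s`.  Its cardinality is `dimension k L`, and `L` is algebraic over the subalgebra
generated by it: let `K₁` be the subfield of `L` of all elements algebraic over that subalgebra
(e.g. `(algebraicClosure (IntermediateField.adjoin k (range family)) L)` as a subfield, with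
`IntermediateField.isAlgebraic_adjoin_iff`); it contains the image of `F`, all elements algebraic over `B`, the
`ζ i r`, hence by `hζ` the `u i r` for `i ∈ s`, and then every element of `L` by `halg`.  So the family is a
transcendence basis; restrict to the subfamily.
-/

set_option autoImplicit false
set_option linter.style.haveILetI false

open Pf72953

namespace Pf72953.Var

/-- the subfield of the elements algebraic over a subalgebra -/
def algSub {k L : Type*} [Field k] [Field L] [Algebra k L] (A : Subalgebra k L) : Subfield L where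
  carrier := {c | IsAlgebraic A c}
  mul_mem' := fun ha hb => IsAlgebraic.mul ha hb
  one_mem' := isAlgebraic_one
  add_mem' := fun ha hb => IsAlgebraic.add ha hb
  zero_mem' := isAlgebraic_zero
  neg_mem' := fun ha => IsAlgebraic.neg ha
  inv_mem' := fun _ ha => IsAlgebraic.inv ha

variable {k B F L ιB ιF I : Type*} [Field k] [Field B] [Field F] [Field L]
  [Algebra k B] [Algebra k F] [Algebra k L] [Algebra B L] [Algebra F L] [IsScalarTower k B L]
  [IsScalarTower k F L] [Fintype ιB] [Fintype ιF] [Fintype I] [DecidableEq I]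
  [Algebra.EssFiniteType k L] {n : I → ℕ}

theorem tot_tb (u : ∀ i, Fin (n i) → L)
    (hdim : dimension k B + dimension k F + ∑ i, n i = dimension k L)
    (halg : ∀ a : L, IsAlgebraic (Algebra.adjoin k
      (Set.range (algebraMap B L) ∪ Set.range (algebraMap F L) ∪ ⋃ i, Set.range (u i))) a)
    {x : ιB → B} {y : ιF → F} (hx : IsTranscendenceBasis k x) (hy : IsTranscendenceBasis k y) :
    IsTranscendenceBasis k (tot x y u) := by
  set s : ιB ⊕ (ιF ⊕ (Σ i, Fin (n i))) → L := tot x y u with hs
  haveI : Algebra.IsAlgebraic (Algebra.adjoin k (Set.range s)) L := by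
    refine ⟨fun a => (halg a).adjoin_of_forall_isAlgebraic ?_⟩
    rintro c ⟨hc, hcs⟩
    rcases hc with (⟨b, rfl⟩ | ⟨b, rfl⟩) | hc
    · refine isAlgebraic_transport hx (Set.range s) (fun i => ?_) b
      exact ⟨Sum.inl i, rfl⟩
    · refine isAlgebraic_transport hy (Set.range s) (fun i => ?_) b
      exact ⟨Sum.inr (Sum.inl i), rfl⟩
    · exfalso
      rw [Set.mem_iUnion] at hc
      obtain ⟨i, r, rfl⟩ := hc
      exact hcs ⟨Sum.inr (Sum.inr ⟨i, r⟩), rfl⟩
  refine Algebra.IsAlgebraic.isTranscendenceBasis_of_lift_le_trdeg_of_finite k s ?_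
  rw [← trdeg_eq_dimension, Cardinal.mk_fintype, Fintype.card_sum, Fintype.card_sum,
    card_eq_of_isTranscendenceBasis hx, card_eq_of_isTranscendenceBasis hy, Fintype.card_sigma]
  simp only [Fintype.card_fin]
  rw [← hdim, add_assoc, Cardinal.lift_natCast, Cardinal.lift_natCast]

theorem tot_indep [Algebra.EssFiniteType k B] [Algebra.EssFiniteType k F]
    (u ζ : ∀ i, Fin (n i) → L)
    (hdim : dimension k B + dimension k F + ∑ i, n i = dimension k L)
    (halg : ∀ a : L, IsAlgebraic (Algebra.adjoin k
      (Set.range (algebraMap B L) ∪ Set.range (algebraMap F L) ∪ ⋃ i, Set.range (u i))) a)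
    (s : Finset I)
    (hζ : ∀ i ∈ s, ∀ K₁ : Subfield L, (∀ c : L, IsAlgebraic B c → c ∈ K₁) →
      (∀ r, ζ i r ∈ K₁) → ∀ r, u i r ∈ K₁)
    {a b : ℕ} {ξ : Fin a → L} {η : Fin b → F} (hξ : AlgebraicIndependent k ξ)
    (hξB : ∀ i, IsAlgebraic B (ξ i)) (hη : AlgebraicIndependent k η) :
    AlgebraicIndependent k (Sum.elim ξ (Sum.elim (fun j => algebraMap F L (η j))
      (fun q : Σ i : s, Fin (n i) => ζ q.1 q.2))) := by
  classical
  let B₁ : IntermediateField B L := algebraicClosure B L
  have hB₁ : ∀ c : L, IsAlgebraic B c → c ∈ B₁ := fun c hc => mem_algebraicClosure_iff.2 hc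
  haveI : IsScalarTower k B₁ L := IsScalarTower.of_algebraMap_eq fun c => rfl
  let ξ' : Fin a → B₁ := fun i => ⟨ξ i, hB₁ _ (hξB i)⟩
  have hξ' : AlgebraicIndependent k ξ' := by
    have h1 : (fun i => (IsScalarTower.toAlgHom k B₁ L) (ξ' i)) = ξ := rfl
    rw [← h1] at hξ
    exact (AlgHom.algebraicIndependent_iff (IsScalarTower.toAlgHom k B₁ L)
      (algebraMap B₁ L).injective).mp hξ
  -- bases of `B₁` and `F`
  obtain ⟨x₀, hx₀⟩ := exists_tb k B
  have hx₁ : IsTranscendenceBasis k (algebraMap B B₁ ∘ x₀) := hx₀.algebraMap_comp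
  haveI : FinTrdeg k B₁ := FinTrdeg.of_isTranscendenceBasis hx₁
  have hdimB : dimension k B₁ = dimension k B := by
    rw [← card_eq_of_isTranscendenceBasis hx₁, Fintype.card_fin]
  obtain ⟨S, hS, hS'⟩ := exists_isTranscendenceBasis_superset (R := k) (s := Set.range ξ')
    hξ'.to_subtype_range
  obtain ⟨T, hT, hT'⟩ := exists_isTranscendenceBasis_superset (R := k) (s := Set.range η)
    hη.to_subtype_range
  haveI := finite_of_isTranscendenceBasis hS'
  haveI := finite_of_isTranscendenceBasis hT'
  haveI := Fintype.ofFinite S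
  haveI := Fintype.ofFinite T
  -- the family
  let ω : ∀ i, Fin (n i) → L := fun i => if i ∈ s then ζ i else u i
  let Z : S ⊕ (T ⊕ (Σ i, Fin (n i))) → L :=
    Sum.elim (fun c => ((c : B₁) : L)) (Sum.elim (fun c => algebraMap F L (c : F))
      (fun q => ω q.1 q.2))
  have hZ : IsTranscendenceBasis k Z := by
    have hB : ∀ c : L, IsAlgebraic B c →
        IsAlgebraic (Algebra.adjoin k (Set.range Z)) c := by
      intro c hc
      exact isAlgebraic_transport (F := B₁) hS' (Set.range Z) (fun i => ⟨Sum.inl i, rfl⟩)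
        ⟨c, hB₁ c hc⟩
    have hω : ∀ i r, IsAlgebraic (Algebra.adjoin k (Set.range Z)) (ω i r) := by
      intro i r
      exact isAlgebraic_algebraMap (⟨_, Algebra.subset_adjoin ⟨Sum.inr (Sum.inr ⟨i, r⟩), rfl⟩⟩ :
        Algebra.adjoin k (Set.range Z))
    have hu : ∀ i r, IsAlgebraic (Algebra.adjoin k (Set.range Z)) (u i r) := by
      intro i r
      by_cases hi : i ∈ s
      · refine hζ i hi (algSub (Algebra.adjoin k (Set.range Z))) hB (fun r' => ?_) r
        have := hω i r'
        simp only [ω, if_pos hi] at this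
        exact this
      · have := hω i r
        simp only [ω, if_neg hi] at this
        exact this
    haveI : Algebra.IsAlgebraic (Algebra.adjoin k (Set.range Z)) L := by
      refine ⟨fun a => (halg a).adjoin_of_forall_isAlgebraic ?_⟩
      rintro c ⟨hc, -⟩
      rcases hc with (⟨b, rfl⟩ | ⟨b, rfl⟩) | hc
      · exact hB _ (isAlgebraic_algebraMap b)
      · exact isAlgebraic_transport hT' (Set.range Z) (fun i => ⟨Sum.inr (Sum.inl i), rfl⟩) b
      · rw [Set.mem_iUnion] at hc
        obtain ⟨i, r, rfl⟩ := hc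
        exact hu i r
    refine Algebra.IsAlgebraic.isTranscendenceBasis_of_lift_le_trdeg_of_finite k Z ?_
    rw [← trdeg_eq_dimension, Cardinal.mk_fintype, Fintype.card_sum, Fintype.card_sum,
      card_eq_of_isTranscendenceBasis hS', card_eq_of_isTranscendenceBasis hT',
      Fintype.card_sigma, hdimB]
    simp only [Fintype.card_fin]
    rw [← hdim, add_assoc, Cardinal.lift_natCast, Cardinal.lift_natCast]
  let e : Fin a ⊕ (Fin b ⊕ (Σ i : s, Fin (n i))) → S ⊕ (T ⊕ (Σ i, Fin (n i))) :=
    Sum.map (fun i => ⟨ξ' i, hS ⟨i, rfl⟩⟩) (Sum.map (fun j => ⟨η j, hT ⟨j, rfl⟩⟩)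
      (fun q => ⟨q.1, q.2⟩))
  have he : Function.Injective e := by
    refine Function.Injective.sumMap ?_ (Function.Injective.sumMap ?_ ?_)
    · intro i j hij
      exact hξ'.injective (congrArg Subtype.val hij)
    · intro i j hij
      exact hη.injective (congrArg Subtype.val hij)
    · rintro ⟨⟨i, hi⟩, r⟩ ⟨⟨j, hj⟩, r'⟩ hij
      simp only [Sigma.mk.injEq] at hij
      obtain ⟨rfl, h2⟩ := hij
      rw [heq_eq_eq] at h2
      rw [h2]
  have h2 := hZ.1.comp e he
  convert h2 using 1
  funext i
  rcases i with i | i | ⟨⟨i, hi⟩, r⟩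
  · rfl
  · rfl
  · simp [e, Z, ω, hi]

end Pf72953.Var
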