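import Mathlib
import Pool.Agent.Lib.Pf72953v.Defs
import Pool.Agent.Lib.Pf72953v.Diff

/-!
Module Pf72953v.Ratio: change of affine coordinates `u_r ↦ ℓ_{J (r+1)} / ℓ_{J 0}`.

Sketch.
`det_ratioMat`: let `Q = of fun r c => H (J r) c` (so `brk = det Q`), `x = (1, u) = Fin.cons 1 u`.
Replace column `0` of `Q` by `∑ c, x c • column c = (ℓ_r)_r` (`Matrix.det_updateCol_sum` with
coefficients `x`, `x 0 = 1`: the determinant does not change).  Then subtract `ℓ_r / ℓ_0` times row `0`
from row `r ≠ 0` (`Matrix.det_eq_of_forall_row_eq_smul_add_const`): the first column becomes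
`(ℓ_0, 0, …, 0)` and the remaining block has entries `H (J r.succ) c.succ - ℓ_{r+1}/ℓ_0 * H (J 0) c.succ`,
i.e. `ℓ_0` times the transpose of `ratioMat`.  `Matrix.det_succ_column_zero` gives
`brk = ℓ_0 * det (ℓ_0 • ratioMatᵀ) = ℓ_0 * ℓ_0 ^ n * det ratioMat`.
`D_lin`: Leibniz, `D (H a j)` by `exists_D_of_isAlgebraic`.
`D_ratio`: `Derivation.leibniz_div` and `D_lin` for the two forms.
-/

set_option autoImplicit false
set_option linter.style.haveILetI false

open KaehlerDifferential Module Polynomial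
open Pf72953

namespace Pf72953.Var

/-- the matrix of partial derivatives of the `ℓ_{J (r+1)} / ℓ_{J 0}` with respect to `u` -/
def ratioMat {A K : Type*} [Field K] {n : ℕ} (H : A → Fin (n + 1) → K) (u : Fin n → K)
    (J : Fin (n + 1) → A) : Matrix (Fin n) (Fin n) K :=
  Matrix.of fun j r =>
    (H (J r.succ) j.succ - lin H u (J r.succ) / lin H u (J 0) * H (J 0) j.succ) / lin H u (J 0)

theorem det_ratioMat {A K : Type*} [Field K] {n : ℕ} (H : A → Fin (n + 1) → K) (u : Fin n → K)
    (J : Fin (n + 1) → A) (h0 : lin H u (J 0) ≠ 0) :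
    (ratioMat H u J).det = brk H J / lin H u (J 0) ^ (n + 1) := by
  classical
  set l0 := lin H u (J 0) with hl0
  let Q : Matrix (Fin (n + 1)) (Fin (n + 1)) K := Matrix.of fun r c => H (J r) c
  let x : Fin (n + 1) → K := Fin.cons 1 u
  let Q' : Matrix (Fin (n + 1)) (Fin (n + 1)) K :=
    Q.updateCol 0 (fun k => ∑ i, x i • Q k i)
  have hQ' : Q'.det = brk H J := by
    have h := Matrix.det_updateCol_sum Q 0 x
    rw [show x 0 = 1 from rfl, one_smul] at h
    exact h
  have hcol : ∀ r, Q' r 0 = lin H u (J r) := by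
    intro r
    simp only [Q', Matrix.updateCol_self, lin, Fin.sum_univ_succ, Q, Matrix.of_apply, x,
      Fin.cons_zero, Fin.cons_succ, smul_eq_mul, one_mul]
    congr 1
    exact Finset.sum_congr rfl fun j _ => mul_comm _ _
  have hcols : ∀ r (j : Fin n), Q' r j.succ = H (J r) j.succ := by
    intro r j
    simp only [Q']
    rw [Matrix.updateCol_ne (Fin.succ_ne_zero j)]
    rfl
  let c : Fin (n + 1) → K := fun r => if r = 0 then 0 else -(lin H u (J r) / l0)
  let P : Matrix (Fin (n + 1)) (Fin (n + 1)) K := Matrix.of fun i j => Q' i j + c i * Q' 0 j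
  have hP : P.det = Q'.det :=
    Matrix.det_eq_of_forall_row_eq_smul_add_const c 0 (by simp [c]) (fun i j => rfl)
  have hP0 : P 0 0 = l0 := by
    simp [P, c, hcol, hl0]
  have hPs : ∀ i : Fin n, P i.succ 0 = 0 := by
    intro i
    simp only [P, Matrix.of_apply, hcol, c, if_neg (Fin.succ_ne_zero i)]
    rw [← hl0]
    field_simp
    ring
  have hsub : P.submatrix (Fin.succAbove 0) Fin.succ = l0 • (ratioMat H u J).transpose := by
    ext i j
    simp only [Matrix.submatrix_apply, Fin.succAbove_zero, P, Matrix.of_apply, hcols, c,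
      if_neg (Fin.succ_ne_zero i), Matrix.smul_apply, Matrix.transpose_apply, ratioMat,
      smul_eq_mul]
    rw [← hl0]
    field_simp
    ring
  have hdet : P.det = l0 * (l0 ^ n * (ratioMat H u J).det) := by
    rw [Matrix.det_succ_column_zero, Fin.sum_univ_succ]
    rw [Finset.sum_eq_zero (fun i _ => by rw [hPs i]; ring)]
    rw [hsub, hP0, Matrix.det_smul, Matrix.det_transpose, Fintype.card_fin]
    simp
  have : brk H J = l0 ^ (n + 1) * (ratioMat H u J).det := by
    rw [← hQ', ← hP, hdet]; ring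
  rw [this]
  field_simp

theorem D_lin {k B L A ι : Type*} [Field k] [CharZero k] [Field B] [Field L]
    [Algebra k B] [Algebra k L] [Algebra B L] [IsScalarTower k B L] [Fintype ι] {cB : ι → B}
    (hB : IsTranscendenceBasis k cB) {n : ℕ} {H : A → Fin (n + 1) → L} (u : Fin n → L)
    (halg : ∀ a j, IsAlgebraic B (H a j)) (a : A) :
    ∃ ρ : ι → L, D k L (lin H u a) =
      ∑ j, H a j.succ • D k L (u j) + ∑ i, ρ i • D k L (algebraMap B L (cB i)) := by
  choose σ hσ using fun j => exists_D_of_isAlgebraic (k := k) (L := L) hB (halg a j)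
  refine ⟨fun i => σ 0 i + ∑ j : Fin n, u j * σ j.succ i, ?_⟩
  have h1 : D k L (lin H u a) = D k L (H a 0) +
      ∑ j : Fin n, (H a j.succ • D k L (u j) + u j • D k L (H a j.succ)) := by
    simp only [lin, map_add, map_sum, Derivation.leibniz]
  rw [h1, Finset.sum_add_distrib, hσ 0]
  have h2 : ∑ j : Fin n, u j • D k L (H a j.succ) =
      ∑ i, (∑ j : Fin n, u j * σ j.succ i) • D k L (algebraMap B L (cB i)) := by
    simp only [hσ, Finset.smul_sum, Finset.sum_smul, mul_smul]
    exact Finset.sum_comm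
  rw [h2]
  simp only [add_smul, Finset.sum_add_distrib]
  abel

theorem D_ratio {k B L A ι : Type*} [Field k] [CharZero k] [Field B] [Field L]
    [Algebra k B] [Algebra k L] [Algebra B L] [IsScalarTower k B L] [Fintype ι] {cB : ι → B}
    (hB : IsTranscendenceBasis k cB) {n : ℕ} {H : A → Fin (n + 1) → L} (u : Fin n → L)
    (halg : ∀ a j, IsAlgebraic B (H a j)) (J : Fin (n + 1) → A) (h0 : lin H u (J 0) ≠ 0)
    (r : Fin n) :
    ∃ ρ : ι → L, D k L (lin H u (J r.succ) / lin H u (J 0)) =
      ∑ j, ratioMat H u J j r • D k L (u j) + ∑ i, ρ i • D k L (algebraMap B L (cB i)) := by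
  obtain ⟨ρ, hρ⟩ := D_lin hB u halg (J r.succ)
  obtain ⟨τ, hτ⟩ := D_lin hB u halg (J 0)
  set l0 := lin H u (J 0) with hl0
  set lr := lin H u (J r.succ) with hlr
  refine ⟨fun i => (ρ i - lr / l0 * τ i) / l0, ?_⟩
  have e1 : ∀ j, ratioMat H u J j r = l0⁻¹ * H (J r.succ) j.succ -
      (l0⁻¹ * (lr / l0)) * H (J 0) j.succ := by
    intro j
    simp only [ratioMat, Matrix.of_apply, ← hl0, ← hlr]
    field_simp
  have e2 : ∀ i, (ρ i - lr / l0 * τ i) / l0 = l0⁻¹ * ρ i - (l0⁻¹ * (lr / l0)) * τ i := by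
    intro i
    field_simp
  have e3 : D k L (lr / l0) = l0⁻¹ • D k L lr - (l0⁻¹ * (lr / l0)) • D k L l0 := by
    rw [Derivation.leibniz_div, smul_sub, smul_smul, smul_smul]
    congr 2
    · field_simp
    · field_simp
  rw [e3, hρ, hτ]
  simp only [e1, e2, sub_smul, mul_smul, Finset.sum_sub_distrib, ← Finset.smul_sum, smul_add]
  abel

end Pf72953.Var
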