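import Mathlib
import Pool.Agent.Lib.Pf72953v.Defs
import Pool.Agent.Lib.Pf72953v.Diff
import Pool.Agent.Lib.Pf72953v.Ratio

/-!
Module Pf72953v.Block: the Jacobian of the total family.

Sketch.
`det_blockDiagonal'`: e.g. `Matrix.BlockTriangular.det` for a linear order on the finite index type
(transport along `Fintype.equivFin`), or induction, or expand the permutation sum.
`jac_tot`: two applications of `jac_of_linear`.
(1) `tot x y u` in terms of `tot cB cF u`: `D (x_b) = ∑ pd hB i (x_b) D (cB_i)` (`D_algebraMap_eq`),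
the same for `F`, matrix `fromBlocks P_B 0 0 (fromBlocks P_F 0 0 1)` with
`P_B = (of fun i j => pd hB i (x j)).map (algebraMap B L)`; `det P_B = algebraMap (jac hB x)`
(`jac_eq_det`, `RingHom.map_det`).
(2) `tot cB cF u'` in terms of `tot cB cF u`, `u' i r = ℓ_{J_i (r+1)} / ℓ_{J_i 0}`, with `D_ratio`:
matrix `fromBlocks 1 (0 | R) 0 (fromBlocks 1 0 0 (blockDiagonal' fun i => ratioMat (H i) (u i) (J i)))`
of determinant `∏ brk / ℓ_0 ^ (n+1)` (`Matrix.det_fromBlocks_zero₂₁`, `det_blockDiagonal'`,
`det_ratioMat`).  Solve (2) for `jac hL (tot cB cF u)`.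
-/

set_option autoImplicit false
set_option linter.style.haveILetI false

open KaehlerDifferential Module Polynomial
open Pf72953

namespace Pf72953.Var

theorem det_blockDiagonal' {o R : Type*} [Fintype o] [DecidableEq o] [CommRing R] {n : o → Type*}
    [∀ i, Fintype (n i)] [∀ i, DecidableEq (n i)] (M : ∀ i, Matrix (n i) (n i) R) :
    (Matrix.blockDiagonal' M).det = ∏ i, (M i).det := by
  letI : LinearOrder o := LinearOrder.lift' (Fintype.equivFin o) (Fintype.equivFin o).injective
  have h : (Matrix.blockDiagonal' M).BlockTriangular Sigma.fst := by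
    convert Matrix.blockTriangular_blockDiagonal' M
  rw [h.det_fintype]
  refine Finset.prod_congr rfl fun k _ => ?_
  rw [← Matrix.det_submatrix_equiv_self (Equiv.sigmaSubtype k).symm]
  congr 1
  ext i j
  simp only [Matrix.submatrix_apply, Matrix.toSquareBlock_def, Matrix.of_apply]
  exact Matrix.blockDiagonal'_apply_eq M k i j

variable {k B F L ιB ιF I : Type*} [Field k] [CharZero k] [Field B] [Field F] [Field L]
  [Algebra k B] [Algebra k F] [Algebra k L] [Algebra B L] [Algebra F L] [IsScalarTower k B L]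
  [IsScalarTower k F L] [Fintype ιB] [DecidableEq ιB] [Fintype ιF] [DecidableEq ιF] [Fintype I]
  [DecidableEq I] {n : I → ℕ} {A : I → Type*}

/-- the new affine coordinates -/
def newu (H : ∀ i, A i → Fin (n i + 1) → L) (u : ∀ i, Fin (n i) → L)
    (J : ∀ i, Fin (n i + 1) → A i) : ∀ i, Fin (n i) → L :=
  fun i r => lin (H i) (u i) (J i r.succ) / lin (H i) (u i) (J i 0)

theorem jac_tot_aux1 {cB : ιB → B} {cF : ιF → F} (hB : IsTranscendenceBasis k cB)
    (hF : IsTranscendenceBasis k cF) {cL : ιB ⊕ (ιF ⊕ (Σ i, Fin (n i))) → L}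
    (hL : IsTranscendenceBasis k cL) (x : ιB → B) (y : ιF → F) (u : ∀ i, Fin (n i) → L) :
    jac hL (tot x y u) = algebraMap B L (jac hB x) * algebraMap F L (jac hF y) *
      jac hL (tot cB cF u) := by
  have h := jac_of_linear hL (a := tot x y u) (a' := tot cB cF u)
    (Matrix.fromBlocks ((algebraMap B L).mapMatrix (Matrix.of fun i j => pd hB i (x j))) 0 0
      (Matrix.fromBlocks ((algebraMap F L).mapMatrix (Matrix.of fun i j => pd hF i (y j))) 0 0
        (1 : Matrix (Σ i, Fin (n i)) (Σ i, Fin (n i)) L))) ?_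
  · rw [h, Matrix.det_fromBlocks_zero₂₁, Matrix.det_fromBlocks_zero₂₁, Matrix.det_one,
      ← RingHom.map_det, ← RingHom.map_det, ← jac_eq_det, ← jac_eq_det]
    ring
  · rintro (j | j | j)
    · rw [Fintype.sum_sum_type]
      simp only [tot, Sum.elim_inl, Sum.elim_inr, Matrix.fromBlocks_apply₁₁,
        Matrix.fromBlocks_apply₂₁, Matrix.zero_apply, zero_smul, Finset.sum_const_zero, add_zero,
        RingHom.mapMatrix_apply, Matrix.map_apply, Matrix.of_apply]
      exact D_algebraMap_eq hB (x j)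
    · rw [Fintype.sum_sum_type, Fintype.sum_sum_type]
      simp only [tot, Sum.elim_inl, Sum.elim_inr, Matrix.fromBlocks_apply₁₁,
        Matrix.fromBlocks_apply₂₁, Matrix.fromBlocks_apply₁₂, Matrix.fromBlocks_apply₂₂,
        Matrix.zero_apply, zero_smul, Finset.sum_const_zero, add_zero, zero_add,
        RingHom.mapMatrix_apply, Matrix.map_apply, Matrix.of_apply]
      exact D_algebraMap_eq hF (y j)
    · rw [Fintype.sum_sum_type, Fintype.sum_sum_type]
      simp only [tot, Sum.elim_inr, Matrix.fromBlocks_apply₁₂, Matrix.fromBlocks_apply₂₂,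
        Matrix.zero_apply, zero_smul, Finset.sum_const_zero, zero_add, Matrix.one_apply,
        ite_smul, one_smul]
      simp

omit [Algebra k F] [IsScalarTower k F L] in
theorem jac_tot_aux2 {cB : ιB → B} {cF : ιF → F} (hB : IsTranscendenceBasis k cB)
    {cL : ιB ⊕ (ιF ⊕ (Σ i, Fin (n i))) → L}
    (hL : IsTranscendenceBasis k cL)
    (H : ∀ i, A i → Fin (n i + 1) → L) (u : ∀ i, Fin (n i) → L) (J : ∀ i, Fin (n i + 1) → A i)
    (halg : ∀ i a j, IsAlgebraic B (H i a j))
    (h0 : ∀ i, lin (H i) (u i) (J i 0) ≠ 0) :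
    jac hL (tot cB cF (newu H u J)) =
      (∏ i, brk (H i) (J i) / lin (H i) (u i) (J i 0) ^ (n i + 1)) * jac hL (tot cB cF u) := by
  have hR := fun s : Σ i, Fin (n i) => D_ratio hB (u s.1) (halg s.1) (J s.1) (h0 s.1) s.2
  choose R hR using hR
  have h := jac_of_linear hL (a := tot cB cF (newu H u J)) (a' := tot cB cF u)
    (Matrix.fromBlocks 1 (Matrix.of fun b c => Sum.elim (fun _ => (0 : L)) (fun s => R s b) c) 0
      (Matrix.fromBlocks 1 0 0
        (Matrix.blockDiagonal' fun i => ratioMat (H i) (u i) (J i)))) ?_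
  · rw [h, Matrix.det_fromBlocks_zero₂₁, Matrix.det_fromBlocks_zero₂₁, Matrix.det_one,
      Matrix.det_one, one_mul, one_mul, det_blockDiagonal']
    congr 1
    exact Finset.prod_congr rfl fun i _ => det_ratioMat (H i) (u i) (J i) (h0 i)
  · rintro (j | j | j)
    · rw [Fintype.sum_sum_type]
      simp only [tot, Sum.elim_inl, Sum.elim_inr, Matrix.fromBlocks_apply₁₁,
        Matrix.fromBlocks_apply₂₁, Matrix.zero_apply, zero_smul, Finset.sum_const_zero, add_zero,
        Matrix.one_apply, ite_smul, one_smul]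
      simp
    · rw [Fintype.sum_sum_type, Fintype.sum_sum_type]
      simp only [tot, Sum.elim_inl, Sum.elim_inr, Matrix.fromBlocks_apply₁₁,
        Matrix.fromBlocks_apply₂₁, Matrix.fromBlocks_apply₁₂, Matrix.fromBlocks_apply₂₂,
        Matrix.zero_apply, zero_smul, Finset.sum_const_zero, add_zero, zero_add,
        Matrix.of_apply, Matrix.one_apply, ite_smul, one_smul]
      simp
    · rw [Fintype.sum_sum_type, Fintype.sum_sum_type]
      simp only [tot, Sum.elim_inl, Sum.elim_inr, Matrix.fromBlocks_apply₁₂,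
        Matrix.fromBlocks_apply₂₂, Matrix.zero_apply, zero_smul, Finset.sum_const_zero, zero_add,
        Matrix.of_apply]
      have h1 : ∑ s : Σ i, Fin (n i), Matrix.blockDiagonal' (fun i => ratioMat (H i) (u i) (J i)) s j •
          D k L (u s.1 s.2) = ∑ r, ratioMat (H j.1) (u j.1) (J j.1) r j.2 • D k L (u j.1 r) := by
        rw [Fintype.sum_sigma, Finset.sum_eq_single j.1]
        · refine Finset.sum_congr rfl fun r _ => ?_
          have : Matrix.blockDiagonal' (fun i => ratioMat (H i) (u i) (J i)) ⟨j.1, r⟩ j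
              = ratioMat (H j.1) (u j.1) (J j.1) r j.2 :=
            Matrix.blockDiagonal'_apply_eq (fun i => ratioMat (H i) (u i) (J i)) j.1 r j.2
          rw [this]
        · intro i _ hi
          refine Finset.sum_eq_zero fun r _ => ?_
          have : Matrix.blockDiagonal' (fun i => ratioMat (H i) (u i) (J i)) ⟨i, r⟩ j = 0 :=
            Matrix.blockDiagonal'_apply_ne (fun i => ratioMat (H i) (u i) (J i)) r j.2 hi
          rw [this, zero_smul]
        · intro h
          exact absurd (Finset.mem_univ _) h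
      rw [h1, add_comm]
      exact hR j

theorem jac_tot {cB : ιB → B} {cF : ιF → F} (hB : IsTranscendenceBasis k cB)
    (hF : IsTranscendenceBasis k cF) {cL : ιB ⊕ (ιF ⊕ (Σ i, Fin (n i))) → L}
    (hL : IsTranscendenceBasis k cL) (x : ιB → B) (y : ιF → F)
    (H : ∀ i, A i → Fin (n i + 1) → L) (u : ∀ i, Fin (n i) → L) (J : ∀ i, Fin (n i + 1) → A i)
    (halg : ∀ i a j, IsAlgebraic B (H i a j)) (hbrk : ∀ i, brk (H i) (J i) ≠ 0)
    (h0 : ∀ i, lin (H i) (u i) (J i 0) ≠ 0) :
    jac hL (tot x y u) = algebraMap B L (jac hB x) * algebraMap F L (jac hF y) *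
      (∏ i, lin (H i) (u i) (J i 0) ^ (n i + 1) / brk (H i) (J i)) *
      jac hL (tot cB cF (newu H u J)) := by
  rw [jac_tot_aux1 hB hF hL x y u, jac_tot_aux2 hB hL H u J halg h0]
  have h1 : (∏ i, lin (H i) (u i) (J i 0) ^ (n i + 1) / brk (H i) (J i)) *
      (∏ i, brk (H i) (J i) / lin (H i) (u i) (J i 0) ^ (n i + 1)) = 1 := by
    rw [← Finset.prod_mul_distrib]
    refine Finset.prod_eq_one fun i _ => ?_
    have h2 := hbrk i
    have h3 := pow_ne_zero (n i + 1) (h0 i)
    field_simp
  calc algebraMap B L (jac hB x) * algebraMap F L (jac hF y) * jac hL (tot cB cF u)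
      = algebraMap B L (jac hB x) * algebraMap F L (jac hF y) *
        ((∏ i, lin (H i) (u i) (J i 0) ^ (n i + 1) / brk (H i) (J i)) *
      (∏ i, brk (H i) (J i) / lin (H i) (u i) (J i 0) ^ (n i + 1))) * jac hL (tot cB cF u) := by
        rw [h1, mul_one]
    _ = _ := by ring

end Pf72953.Var
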