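import Mathlib
import Pool.Agent.Lib.Pf72953v.Defs

/-!
Module Pf72953v.ArrVal: products of logarithmic forms are in `ArrReg`.
-/

set_option autoImplicit false
set_option linter.style.haveILetI false

open scoped WithZero
open Pf72953

namespace Pf72953.Var

namespace ArrValAux

section alg

variable {B L A : Type*} [Field B] [Field L] [Algebra B L] {n : ℕ} {H : A → Fin (n + 1) → L}

theorem brk_isIntegral (hH : GenPos B H) (J : Fin (n + 1) → A) : IsIntegral B (brk H J) := by
  unfold brk
  rw [Matrix.det_apply]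
  refine IsIntegral.sum _ fun σ _ => ?_
  rw [Units.smul_def]
  refine IsIntegral.zsmul ?_ _
  refine IsIntegral.prod _ fun i _ => ?_
  rw [Matrix.of_apply]
  exact (hH.alg _ _).isIntegral

theorem lin_eq (u : Fin n → L) (a : A) :
    lin H u a = ∑ c, H a c * (Fin.cons 1 u : Fin (n + 1) → L) c := by
  rw [Fin.sum_univ_succ]
  simp [lin]

theorem cramer_lin [DecidableEq A] (u : Fin n → L) (J : Fin (n + 1) → A) (b : A) :
    brk H J * lin H u b =
      ∑ r, brk H (Function.update J r b) * lin H u (J r) := by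
  set M : Matrix (Fin (n + 1)) (Fin (n + 1)) L := Matrix.of fun r c => H (J r) c with hM
  have h1 := Matrix.mulVec_cramer M.transpose (H b)
  have h2 : ∀ r, Matrix.cramer M.transpose (H b) r = brk H (Function.update J r b) := by
    intro r
    rw [Matrix.cramer_transpose_apply]
    unfold brk
    congr 1
    ext i j
    by_cases hi : i = r
    · subst hi
      simp
    · simp [Matrix.updateRow_ne hi, Function.update_of_ne hi, hM]
  have h3 : ∀ c, ∑ r, brk H (Function.update J r b) * H (J r) c = brk H J * H b c := by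
    intro c
    have h4 := congrFun h1 c
    rw [Matrix.det_transpose] at h4
    simp only [Matrix.mulVec, dotProduct, Pi.smul_apply, smul_eq_mul, Matrix.transpose_apply, h2]
      at h4
    rw [show brk H J = M.det from rfl, ← h4]
    refine Finset.sum_congr rfl fun r _ => ?_
    rw [mul_comm]
    rfl
  rw [lin_eq, Finset.mul_sum]
  simp only [lin_eq, Finset.mul_sum]
  rw [Finset.sum_comm]
  refine Finset.sum_congr rfl fun c _ => ?_
  rw [← mul_assoc, ← h3 c, Finset.sum_mul]
  refine Finset.sum_congr rfl fun r _ => ?_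
  ring

end alg

theorem prod_comp_occ {A M : Type*} [Fintype A] [DecidableEq A] [CommMonoid M] {n : ℕ}
    (R : Fin (n + 1) → A) (f : A → M) : ∏ r, f (R r) = ∏ a, f a ^ occ R a := by
  rw [← Finset.prod_fiberwise Finset.univ R]
  refine Finset.prod_congr rfl fun a _ => ?_
  rw [Finset.prod_congr rfl (g := fun _ => f a)
    (fun r hr => by rw [(Finset.mem_filter.1 hr).2]), Finset.prod_const]
  rfl

end ArrValAux

open ArrValAux

variable {k B L A : Type*} [Field k] [Field B] [Field L] [Algebra k L] [Algebra B L] {n : ℕ}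
  {H : A → Fin (n + 1) → L} {u : Fin n → L}

theorem ArrReg.mul {m m' : ℕ} {G G' : L} (hG : G ∈ ArrReg B k H u m)
    (hG' : G' ∈ ArrReg B k H u m') : G * G' ∈ ArrReg B k H u (m + m') := by
  intro w hw J hJ hmax
  obtain ⟨h1, h2⟩ := hG w hw J hJ hmax
  obtain ⟨h1', h2'⟩ := hG' w hw J hJ hmax
  refine ⟨?_, fun htriv hne t ht => ?_⟩
  · rw [map_mul, pow_add]
    exact mul_le_mul' h1 h1'
  · rw [map_mul, pow_add]
    exact mul_le_mul' (h2 htriv hne t ht) (h2' htriv hne t ht)

theorem prod_gam_mem [Fintype A] [DecidableEq A] (hH : GenPos B H) (hne : ∀ a, lin H u a ≠ 0)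
    {N : ℕ} {δ : A → ℕ} (hN : 0 < N) (horb : OrbCond B H u N δ) {κ : Type*} [Fintype κ]
    (R : κ → Fin (n + 1) → A) (hR : ∀ c, Function.Injective (R c))
    (hdeg : ∀ a, N * ∑ c, occ (R c) a + δ a * Fintype.card κ ≤ N * Fintype.card κ) :
    ∏ c, gam H u (R c) ∈ ArrReg B k H u (Fintype.card κ) := by
  intro w hw J hJ hmax
  refine ⟨?_, fun htriv hvar t ht => ?_⟩
  · rw [map_prod]
    calc ∏ c, w (gam H u (R c)) ≤ ∏ _c : κ, w (gam H u J) :=
          Finset.prod_le_prod' fun c _ => hmax _ (hR c)
      _ = _ := by rw [Finset.prod_const]; rfl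
  -- the second bound
  have hbrk : ∀ J' : Fin (n + 1) → A, Function.Injective J' → w (brk H J') = 1 := fun J' hJ' =>
    val_eq_one_of_isIntegral htriv (hH.brk_ne J' hJ') (brk_isIntegral hH J')
  have hbrk' : ∀ J' : Fin (n + 1) → A, w (brk H J') ≤ 1 := by
    intro J'
    rcases eq_or_ne (brk H J') 0 with h | h
    · rw [h, map_zero]; exact zero_le'
    · exact (val_eq_one_of_isIntegral htriv h (brk_isIntegral hH J')).le
  have hw0 : ∀ a, w (lin H u a) ≠ 0 := fun a => (Valuation.ne_zero_iff w).2 (hne a)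
  have hgam : ∀ J' : Fin (n + 1) → A, Function.Injective J' →
      w (gam H u J') = ∏ r, (w (lin H u (J' r)))⁻¹ := by
    intro J' hJ'
    unfold gam
    rw [map_div₀, hbrk J' hJ', map_prod, one_div, Finset.prod_inv_distrib]
  obtain ⟨a₀, a₁, ha01⟩ := hvar
  haveI : Nonempty A := ⟨a₀⟩
  obtain ⟨b, hb⟩ := Finite.exists_max fun a => w (lin H u a)
  -- some form of the tuple `J` has maximal value
  obtain ⟨r, hr⟩ : ∃ r, w (lin H u (J r)) = w (lin H u b) := by
    by_contra hcon
    push Not at hcon
    have h1 : w (brk H J * lin H u b) < w (lin H u b) := by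
      rw [cramer_lin u J b]
      refine Valuation.map_sum_lt _ (hw0 b) fun r _ => ?_
      rw [map_mul]
      calc w (brk H (Function.update J r b)) * w (lin H u (J r)) ≤ 1 * w (lin H u (J r)) :=
            mul_le_mul_left (hbrk' _) _
        _ = w (lin H u (J r)) := one_mul _
        _ < _ := lt_of_le_of_ne (hb (J r)) (hcon r)
    rw [map_mul, hbrk J hJ, one_mul] at h1
    exact lt_irrefl _ h1
  -- the forms outside of the tuple have maximal value
  have hout : ∀ a, (∀ s, J s ≠ a) → w (lin H u a) = w (lin H u b) := by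
    intro a ha
    refine le_antisymm (hb a) ?_
    have hinj : Function.Injective (Function.update J r a) := by
      intro i j hij
      by_cases hi : i = r
      · by_cases hj : j = r
        · rw [hi, hj]
        · rw [hi, Function.update_self, Function.update_of_ne hj] at hij
          exact absurd hij.symm (ha j)
      · by_cases hj : j = r
        · rw [hj, Function.update_self, Function.update_of_ne hi] at hij
          exact absurd hij (ha i)
        · rw [Function.update_of_ne hi, Function.update_of_ne hj] at hij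
          exact hJ hij
    have h1 := hmax _ hinj
    rw [hgam _ hinj, hgam _ hJ, ← Finset.mul_prod_erase _ _ (Finset.mem_univ r),
      ← Finset.mul_prod_erase _ (fun s => (w (lin H u (J s)))⁻¹) (Finset.mem_univ r),
      Function.update_self] at h1
    rw [Finset.prod_congr rfl (g := fun s => (w (lin H u (J s)))⁻¹)
      (fun s hs => by rw [Function.update_of_ne (Finset.ne_of_mem_erase hs)])] at h1
    have hP : ∏ s ∈ Finset.univ.erase r, (w (lin H u (J s)))⁻¹ ≠ 0 :=
      Finset.prod_ne_zero_iff.2 fun s _ => inv_ne_zero (hw0 _)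
    have h2 : (w (lin H u a))⁻¹ ≤ (w (lin H u (J r)))⁻¹ :=
      le_of_mul_le_mul_right h1 (zero_lt_iff.2 hP)
    rw [← hr]
    exact (inv_le_inv₀ (zero_lt_iff.2 (hw0 _)) (zero_lt_iff.2 (hw0 _))).1 h2
  -- the ratios
  set v : A → ℤᵐ⁰ := fun a => w (lin H u a / lin H u b) with hv
  have hv0 : ∀ a, v a ≠ 0 := fun a => (Valuation.ne_zero_iff w).2 (div_ne_zero (hne a) (hne b))
  have hv1 : ∀ a, v a ≤ 1 := by
    intro a
    simp only [hv]
    rw [map_div₀]
    exact div_le_one_of_le₀ (hb a) zero_le'
  have hlv : ∀ a, w (lin H u a) = w (lin H u b) * v a := by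
    intro a
    simp only [hv]
    rw [map_div₀, mul_div_cancel₀ _ (hw0 b)]
  have hvout : ∀ a, (∀ s, J s ≠ a) → v a = 1 := by
    intro a ha
    simp only [hv]
    rw [map_div₀, hout a ha, div_self (hw0 b)]
  set m := Fintype.card κ with hm
  -- the value of the maximal form
  have hJval : w (gam H u J) = ((w (lin H u b))⁻¹) ^ (n + 1) * (∏ a, v a)⁻¹ := by
    rw [hgam J hJ]
    have h1 : ∀ s, (w (lin H u (J s)))⁻¹ = (w (lin H u b))⁻¹ * (v (J s))⁻¹ := by
      intro s
      rw [hlv (J s), mul_inv]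
    simp_rw [h1]
    rw [Finset.prod_mul_distrib, Finset.prod_const, Finset.card_univ, Fintype.card_fin,
      Finset.prod_inv_distrib]
    congr 2
    rw [← Finset.prod_image (s := Finset.univ) (g := J) (f := v) (fun i _ j _ h => hJ h)]
    refine Finset.prod_subset (Finset.subset_univ _) fun a _ ha => hvout a fun s hs => ha ?_
    exact Finset.mem_image.2 ⟨s, Finset.mem_univ _, hs⟩
  -- the value of the product
  have hGval : w (∏ c, gam H u (R c)) =
      (((w (lin H u b))⁻¹) ^ (n + 1)) ^ m * (∏ a, v a ^ ∑ c, occ (R c) a)⁻¹ := by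
    rw [map_prod]
    have h1 : ∀ c, w (gam H u (R c)) =
        ((w (lin H u b))⁻¹) ^ (n + 1) * (∏ a, v a ^ occ (R c) a)⁻¹ := by
      intro c
      rw [hgam _ (hR c)]
      have h1 : ∀ s, (w (lin H u (R c s)))⁻¹ = (w (lin H u b))⁻¹ * (v (R c s))⁻¹ := by
        intro s
        rw [hlv (R c s), mul_inv]
      simp_rw [h1]
      rw [Finset.prod_mul_distrib, Finset.prod_const, Finset.card_univ, Fintype.card_fin,
        Finset.prod_inv_distrib, prod_comp_occ (R c) v]
    simp_rw [h1]
    rw [Finset.prod_mul_distrib, Finset.prod_const, Finset.card_univ, Finset.prod_inv_distrib,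
      Finset.prod_comm]
    congr 2
    refine Finset.prod_congr rfl fun a _ => ?_
    rw [Finset.prod_pow_eq_pow_sum]
  have hd : ∀ a, ∑ c, occ (R c) a ≤ m := by
    intro a
    have h1 := hdeg a
    have h2 : N * ∑ c, occ (R c) a ≤ N * m := by omega
    exact Nat.le_of_mul_le_mul_left h2 hN
  -- the main inequality
  have hmain : ∏ a, v a ^ (m - ∑ c, occ (R c) a) ≤ w t ^ m := by
    obtain ⟨t₀, ht₀, ht₁⟩ := horb w htriv b hb (by
      by_contra hcon
      push Not at hcon
      exact ha01 (le_antisymm ((hb a₀).trans (hcon a₁)) ((hb a₁).trans (hcon a₀))))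
    have h1 : (∏ a, v a ^ (m - ∑ c, occ (R c) a)) ^ N ≤ (w t ^ m) ^ N := by
      calc (∏ a, v a ^ (m - ∑ c, occ (R c) a)) ^ N
          = ∏ a, v a ^ (N * (m - ∑ c, occ (R c) a)) := by
            rw [← Finset.prod_pow]
            exact Finset.prod_congr rfl fun a _ => by rw [← pow_mul, mul_comm]
        _ ≤ ∏ a, v a ^ (δ a * m) := by
            refine Finset.prod_le_prod' fun a _ => pow_le_pow_right_of_le_one' (hv1 a) ?_
            have h2 := hdeg a
            rw [Nat.mul_sub]
            omega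
        _ = (∏ a, v a ^ δ a) ^ m := by
            rw [← Finset.prod_pow]
            exact Finset.prod_congr rfl fun a _ => by rw [← pow_mul]
        _ ≤ (w t₀ ^ N) ^ m := pow_le_pow_left' ht₁ m
        _ ≤ (w t ^ N) ^ m := pow_le_pow_left' (pow_le_pow_left' (ht.le _ ht₀) N) m
        _ = (w t ^ m) ^ N := by rw [← pow_mul, ← pow_mul, mul_comm]
    exact (pow_le_pow_iff_left₀ zero_le' zero_le' hN.ne').1 h1
  rw [hGval, hJval, mul_pow, mul_pow, mul_assoc]
  refine mul_le_mul' le_rfl ?_
  have hA : (∏ a, v a ^ ∑ c, occ (R c) a) ≠ 0 :=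
    Finset.prod_ne_zero_iff.2 fun a _ => pow_ne_zero _ (hv0 a)
  have hB : (∏ a, v a) ≠ 0 := Finset.prod_ne_zero_iff.2 fun a _ => hv0 a
  have hsplit : (∏ a, v a) ^ m =
      (∏ a, v a ^ ∑ c, occ (R c) a) * ∏ a, v a ^ (m - ∑ c, occ (R c) a) := by
    rw [← Finset.prod_pow, ← Finset.prod_mul_distrib]
    refine Finset.prod_congr rfl fun a _ => ?_
    rw [← pow_add, Nat.add_sub_cancel' (hd a)]
  have h3 : (∏ a, v a ^ ∑ c, occ (R c) a)⁻¹ =
      ((∏ a, v a)⁻¹) ^ m * ∏ a, v a ^ (m - ∑ c, occ (R c) a) := by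
    rw [inv_pow, hsplit, mul_inv, mul_assoc, inv_mul_cancel₀, mul_one]
    exact Finset.prod_ne_zero_iff.2 fun a _ => pow_ne_zero _ (hv0 a)
  rw [h3]
  exact mul_le_mul' le_rfl hmain

end Pf72953.Var
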