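import Mathlib
import Pool.Agent.Lib.Pf72953v.Defs

/-!
Module Pf72953v.Tuples: families of injective tuples with prescribed numbers of occurrences.

Sketch.
`exists_tuples`: induction on `m`.  For `m + 1`: `s = {a | ρ a = m + 1}` has at most `n + 1` elements
(`(m + 1) * card s ≤ ∑ ρ = (n+1) (m+1)`), `t = {a | 1 ≤ ρ a}` has at least `n + 1` elements
(`∑ ρ ≤ (m + 1) * card t`).  `Finset.exists_subsuperset_card_eq` gives `s ⊆ v ⊆ t` with `card v = n + 1`; an
enumeration of `v` is an injective tuple `J` with `occ J a = if a ∈ v then 1 else 0`; apply the induction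
hypothesis to `ρ a - occ J a` and use `Fin.cons J R`, `Fin.sum_univ_succ`.
`exists_le_sum_eq`: induction on finite sets (or on `∑ hi`).
`exists_rest`: `e a = ∑ c, occ (P c) a ≤ p`, `e' a` similarly (an injective tuple has `occ ≤ 1`),
`∑ a, e a = (n+1) * p`, `f a = max (e a) (e' a) ≤ p`.  Put `M = p * card A + p + 1`, `m = N * M - p`,
`hi a = (N - δ a) * M - f a`; `(N - δ a) * M ≥ M ≥ p ≥ f a`.  `hi a ≤ (N - 1) * M ≤ m`.  Then
`∑ hi = M * ∑ (N - δ a) - ∑ f ≥ (n + 1) * m`: in the first case `∑ f = (n + 1) * p`; in the second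
`∑ (N - δ a) ≥ (n + 1) * N + 1` and `∑ f ≤ card A * p ≤ M`.  Choose `ρ ≤ hi` with `∑ ρ = (n + 1) * m` and apply
`exists_tuples`; `N * (e a + ρ a) + δ a * (p + m) ≤ N * (N - δ a) * M + δ a * N * M = N * (p + m)`.
-/

set_option autoImplicit false
set_option linter.style.haveILetI false

open Pf72953

namespace Pf72953.Var

variable {A : Type*} [Fintype A] [DecidableEq A] {n : ℕ}

omit [Fintype A] in
theorem occ_of_injective {J : Fin (n + 1) → A} (hJ : Function.Injective J) (a : A) :
    occ J a = if a ∈ Finset.univ.image J then 1 else 0 := by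
  unfold occ
  split_ifs with h
  · obtain ⟨r, -, rfl⟩ := Finset.mem_image.mp h
    rw [Finset.card_eq_one]
    refine ⟨r, ?_⟩
    ext i
    simp only [Finset.mem_filter, Finset.mem_univ, true_and, Finset.mem_singleton]
    exact hJ.eq_iff
  · rw [Finset.card_eq_zero, Finset.filter_eq_empty_iff]
    intro i _ hi
    exact h (Finset.mem_image.mpr ⟨i, Finset.mem_univ _, hi⟩)

omit [Fintype A] in
theorem occ_le_one_of_injective {J : Fin (n + 1) → A} (hJ : Function.Injective J) (a : A) :
    occ J a ≤ 1 := by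
  rw [occ_of_injective hJ]
  split_ifs <;> simp

theorem sum_occ_eq (J : Fin (n + 1) → A) : ∑ a, occ J a = n + 1 := by
  unfold occ
  rw [← Finset.card_eq_sum_card_fiberwise (f := J) (s := Finset.univ) (t := Finset.univ)
    (fun _ _ => Finset.mem_univ _)]
  simp

theorem exists_tuples (n m : ℕ) (ρ : A → ℕ) (h1 : ∀ a, ρ a ≤ m) (h2 : ∑ a, ρ a = (n + 1) * m) :
    ∃ R : Fin m → Fin (n + 1) → A, (∀ c, Function.Injective (R c)) ∧
      ∀ a, ∑ c, occ (R c) a = ρ a := by
  induction m generalizing ρ with
  | zero =>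
    refine ⟨fun c => c.elim0, fun c => c.elim0, fun a => ?_⟩
    have := h1 a
    simp
    omega
  | succ m ih =>
    set s : Finset A := Finset.univ.filter (fun a => ρ a = m + 1) with hs_def
    set t : Finset A := Finset.univ.filter (fun a => 1 ≤ ρ a) with ht_def
    have hst : s ⊆ t := by
      intro a ha
      simp only [hs_def, ht_def, Finset.mem_filter, Finset.mem_univ, true_and] at ha ⊢
      omega
    have hs : s.card ≤ n + 1 := by
      have h3 : s.card * (m + 1) ≤ (n + 1) * (m + 1) := by
        rw [← h2]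
        calc s.card * (m + 1) = ∑ a ∈ s, ρ a := by
              rw [Finset.sum_congr rfl (fun a ha => (Finset.mem_filter.mp ha).2),
                Finset.sum_const, smul_eq_mul]
          _ ≤ ∑ a, ρ a := Finset.sum_le_sum_of_subset (Finset.subset_univ _)
      exact Nat.le_of_mul_le_mul_right h3 (Nat.succ_pos m)
    have ht : n + 1 ≤ t.card := by
      have h3 : (n + 1) * (m + 1) ≤ t.card * (m + 1) := by
        rw [← h2]
        calc ∑ a, ρ a = ∑ a ∈ t, ρ a := by
              symm
              apply Finset.sum_subset (Finset.subset_univ _)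
              intro a _ ha
              simp only [ht_def, Finset.mem_filter, Finset.mem_univ, true_and] at ha
              omega
          _ ≤ ∑ _a ∈ t, (m + 1) := Finset.sum_le_sum fun a _ => h1 a
          _ = t.card * (m + 1) := by simp
      exact Nat.le_of_mul_le_mul_right h3 (Nat.succ_pos m)
    obtain ⟨v, hsv, hvt, hv⟩ := Finset.exists_subsuperset_card_eq hst hs ht
    let e := v.equivFinOfCardEq hv
    let J : Fin (n + 1) → A := fun i => (e.symm i : A)
    have hJ : Function.Injective J := fun i j hij => e.symm.injective (Subtype.ext hij)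
    have hJv : Finset.univ.image J = v := by
      ext a
      simp only [Finset.mem_image, Finset.mem_univ, true_and]
      constructor
      · rintro ⟨i, rfl⟩
        exact (e.symm i).2
      · intro ha
        exact ⟨e ⟨a, ha⟩, by simp [J]⟩
    have hocc : ∀ a, occ J a = if a ∈ v then 1 else 0 := by
      intro a
      rw [occ_of_injective hJ, hJv]
    have hle : ∀ a, occ J a ≤ ρ a := by
      intro a
      rw [hocc]
      split_ifs with h
      · exact (Finset.mem_filter.mp (hvt h)).2
      · exact Nat.zero_le _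
    obtain ⟨R, hR, hR2⟩ := ih (fun a => ρ a - occ J a) (fun a => by
      have h3 := h1 a
      change ρ a - occ J a ≤ m
      by_cases h4 : ρ a = m + 1
      · have h5 : a ∈ v := hsv (Finset.mem_filter.mpr ⟨Finset.mem_univ _, h4⟩)
        rw [hocc, if_pos h5]
        omega
      · omega) (by
      have h3 : ∑ a, (ρ a - occ J a) + ∑ a, occ J a = ∑ a, ρ a := by
        rw [← Finset.sum_add_distrib]
        exact Finset.sum_congr rfl fun a _ => Nat.sub_add_cancel (hle a)
      rw [sum_occ_eq, h2] at h3
      have h4 : (n + 1) * (m + 1) = (n + 1) * m + (n + 1) := by ring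
      omega)
    refine ⟨Fin.cons J R, ?_, ?_⟩
    · intro c
      refine Fin.cases ?_ (fun i => ?_) c
      · simpa using hJ
      · simpa using hR i
    · intro a
      rw [Fin.sum_univ_succ]
      simp only [Fin.cons_zero, Fin.cons_succ]
      rw [hR2]
      have := hle a
      omega

theorem exists_le_sum_eq (hi : A → ℕ) (s : ℕ) (hs : s ≤ ∑ a, hi a) :
    ∃ ρ : A → ℕ, (∀ a, ρ a ≤ hi a) ∧ ∑ a, ρ a = s := by
  induction s with
  | zero => exact ⟨fun _ => 0, fun _ => Nat.zero_le _, by simp⟩
  | succ s ih =>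
    obtain ⟨ρ, h1, h2⟩ := ih (by omega)
    obtain ⟨a, -, ha⟩ := Finset.exists_lt_of_sum_lt (s := Finset.univ) (f := ρ) (g := hi)
      (by omega)
    refine ⟨Function.update ρ a (ρ a + 1), fun b => ?_, ?_⟩
    · by_cases hb : b = a
      · subst hb
        simpa using ha
      · simpa [Function.update_of_ne hb] using h1 b
    · rw [Finset.sum_update_of_mem (Finset.mem_univ a)]
      have h3 := Finset.add_sum_erase Finset.univ ρ (Finset.mem_univ a)
      rw [Finset.sdiff_singleton_eq_erase]
      omega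

theorem exists_rest {N : ℕ} (hN : 0 < N) {δ : A → ℕ} (hδ0 : ∀ a, 0 < δ a) (hδN : ∀ a, δ a < N)
    (hlc : (n + 1) * N ≤ ∑ a, (N - δ a)) {p : ℕ} (P P' : Fin p → Fin (n + 1) → A)
    (hP : ∀ c, Function.Injective (P c)) (hP' : ∀ c, Function.Injective (P' c))
    (h : (∀ a, ∑ c, occ (P c) a = ∑ c, occ (P' c) a) ∨ (n + 1) * N < ∑ a, (N - δ a)) :
    ∃ (m : ℕ) (R : Fin m → Fin (n + 1) → A), 1 ≤ m ∧ (∀ c, Function.Injective (R c)) ∧
      (∀ a, N * (∑ c, occ (P c) a + ∑ c, occ (R c) a) + δ a * (p + m) ≤ N * (p + m)) ∧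
      (∀ a, N * (∑ c, occ (P' c) a + ∑ c, occ (R c) a) + δ a * (p + m) ≤ N * (p + m)) := by
  have hsmall : ∀ (S : Fin p → Fin (n + 1) → A), (∀ c, Function.Injective (S c)) → ∀ a,
      ∑ c, occ (S c) a ≤ p := by
    intro S hS a
    calc ∑ c, occ (S c) a ≤ ∑ _c : Fin p, 1 :=
          Finset.sum_le_sum fun c _ => occ_le_one_of_injective (hS c) a
      _ = p := by simp
  have hsum : ∀ (S : Fin p → Fin (n + 1) → A), ∑ a, ∑ c, occ (S c) a = (n + 1) * p := by
    intro S
    rw [Finset.sum_comm]
    simp only [sum_occ_eq, Finset.sum_const, Finset.card_univ, Fintype.card_fin, smul_eq_mul]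
    ring
  set e : A → ℕ := fun a => ∑ c, occ (P c) a with he
  set e' : A → ℕ := fun a => ∑ c, occ (P' c) a with he'
  have hep : ∀ a, e a ≤ p := hsmall P hP
  have hep' : ∀ a, e' a ≤ p := hsmall P' hP'
  set f : A → ℕ := fun a => max (e a) (e' a) with hf
  have hfp : ∀ a, f a ≤ p := fun a => max_le (hep a) (hep' a)
  set M : ℕ := p * Fintype.card A + p + 1 with hM
  have hNM : M ≤ N * M := Nat.le_mul_of_pos_left M hN
  set m : ℕ := N * M - p with hm
  have hpm : p + m = N * M := by omega
  have hδM : ∀ a, M ≤ (N - δ a) * M := fun a =>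
    Nat.le_mul_of_pos_left M (by have := hδN a; omega)
  have hfM : ∀ a, f a ≤ (N - δ a) * M := fun a => by
    have h3 := hδM a
    have h4 := hfp a
    have h5 : p ≤ M := by rw [hM]; omega
    omega
  have hhi : ∀ a, (N - δ a) * M - f a ≤ m := by
    intro a
    have h3 : (N - δ a) * M + M ≤ N * M := by
      have h4 : (N - δ a) * M + M = (N - δ a + 1) * M := by ring
      rw [h4]
      exact Nat.mul_le_mul_right M (by have := hδ0 a; have := hδN a; omega)
    have h5 : p ≤ M := by rw [hM]; omega
    omega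
  have hsumhi : ∑ a, ((N - δ a) * M - f a) + ∑ a, f a = (∑ a, (N - δ a)) * M := by
    rw [← Finset.sum_add_distrib, Finset.sum_mul]
    exact Finset.sum_congr rfl fun a _ => Nat.sub_add_cancel (hfM a)
  have hge : (n + 1) * m ≤ ∑ a, ((N - δ a) * M - f a) := by
    have h6 : (n + 1) * m + (n + 1) * p = (n + 1) * N * M := by
      rw [← mul_add, add_comm m p, hpm, mul_assoc]
    rcases h with h | h
    · have hfe : ∑ a, f a = (n + 1) * p := by
        rw [← hsum P]
        refine Finset.sum_congr rfl fun a _ => ?_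
        have h3 : e a = e' a := h a
        change max (e a) (e' a) = e a
        rw [← h3, max_self]
      have h4 : (n + 1) * N * M ≤ (∑ a, (N - δ a)) * M := Nat.mul_le_mul_right M hlc
      omega
    · have h3 : ∑ a, f a ≤ M := by
        calc ∑ a, f a ≤ ∑ _a : A, p := Finset.sum_le_sum fun a _ => hfp a
          _ = p * Fintype.card A := by simp [mul_comm]
          _ ≤ M := by rw [hM]; omega
      have h4 : ((n + 1) * N + 1) * M ≤ (∑ a, (N - δ a)) * M := Nat.mul_le_mul_right M h
      have h5 : ((n + 1) * N + 1) * M = (n + 1) * N * M + M := by ring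
      omega
  obtain ⟨ρ, hρ1, hρ2⟩ := exists_le_sum_eq (fun a => (N - δ a) * M - f a) ((n + 1) * m) hge
  obtain ⟨R, hR1, hR2⟩ := exists_tuples n m ρ (fun a => (hρ1 a).trans (hhi a)) hρ2
  have hfin : ∀ (g : A → ℕ), (∀ a, g a ≤ f a) → ∀ a,
      N * (g a + ∑ c, occ (R c) a) + δ a * (p + m) ≤ N * (p + m) := by
    intro g hg a
    rw [hR2, hpm]
    have h3 : g a + ρ a ≤ (N - δ a) * M := by
      have h4 := hρ1 a
      have h5 := hfM a
      have h6 := hg a
      omega
    calc N * (g a + ρ a) + δ a * (N * M) ≤ N * ((N - δ a) * M) + δ a * (N * M) :=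
          Nat.add_le_add_right (Nat.mul_le_mul_left N h3) _
      _ = (N - δ a + δ a) * (N * M) := by ring
      _ = N * (N * M) := by rw [Nat.sub_add_cancel (hδN a).le]
  refine ⟨m, R, ?_, hR1, hfin e (fun a => le_max_left _ _), hfin e' (fun a => le_max_right _ _)⟩
  rw [hm]
  omega

end Pf72953.Var
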