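import Mathlib
import Pool.Agent.Lib.Pf72953v.Defs
import Pool.Agent.Lib.Pf72953v.ArrVal
import Pool.Agent.Lib.Pf72953v.Tuples

/-!
Multipliers of the relative forms of an arrangement.
-/

set_option autoImplicit false
set_option linter.style.haveILetI false

open Pf72953

namespace Pf72953.Var

variable {k B L A : Type*} [Field k] [Field B] [Field L] [Algebra k L] [Algebra B L] {n : ℕ}
  {H : A → Fin (n + 1) → L} {u : Fin n → L} [Fintype A] [DecidableEq A]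

theorem prod_gam_append_mem (hH : GenPos B H) (hne : ∀ a, lin H u a ≠ 0)
    {N : ℕ} (hN : 0 < N) {δ : A → ℕ} (horb : OrbCond B H u N δ) {p m : ℕ}
    (P : Fin p → Fin (n + 1) → A) (R : Fin m → Fin (n + 1) → A)
    (hP : ∀ c, Function.Injective (P c)) (hR : ∀ c, Function.Injective (R c))
    (hdeg : ∀ a, N * (∑ c, occ (P c) a + ∑ c, occ (R c) a) + δ a * (p + m) ≤ N * (p + m)) :
    (∏ c, gam H u (P c)) * ∏ c, gam H u (R c) ∈ ArrReg B k H u (p + m) := by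
  have hcard : Fintype.card (Fin p ⊕ Fin m) = p + m := by simp
  have h := prod_gam_mem (k := k) hH hne hN horb (κ := Fin p ⊕ Fin m) (Sum.elim P R) (by
    rintro (c | c)
    · exact hP c
    · exact hR c) (by
    intro a
    rw [hcard, Fintype.sum_sum_type]
    exact hdeg a)
  rw [hcard, Fintype.prod_sum_type] at h
  exact h

theorem gam_ne_zero (hH : GenPos B H) (hne : ∀ a, lin H u a ≠ 0) {J : Fin (n + 1) → A}
    (hJ : Function.Injective J) : gam H u J ≠ 0 :=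
  div_ne_zero (hH.brk_ne J hJ) (Finset.prod_ne_zero_iff.mpr fun r _ => hne _)

theorem ratio_mem_arr (hH : GenPos B H) (hne : ∀ a, lin H u a ≠ 0)
    {N : ℕ} (hN : 0 < N) {δ : A → ℕ} (horb : OrbCond B H u N δ) (hδ0 : ∀ a, 0 < δ a)
    (hδN : ∀ a, δ a < N)
    (hlc : (n + 1) * N ≤ ∑ a, (N - δ a)) {p : ℕ} (P P' : Fin p → Fin (n + 1) → A)
    (hP : ∀ c, Function.Injective (P c)) (hP' : ∀ c, Function.Injective (P' c))
    (h : (∀ a, ∑ c, occ (P c) a = ∑ c, occ (P' c) a) ∨ (n + 1) * N < ∑ a, (N - δ a)) :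
    ∃ m : ℕ, 1 ≤ m ∧ ∃ W ∈ ArrReg B k H u m, W ≠ 0 ∧
      (∏ c, gam H u (P c)) / (∏ c, gam H u (P' c)) * W ∈ ArrReg B k H u m := by
  obtain ⟨m, R, hm, hR, h1, h2⟩ := exists_rest hN hδ0 hδN hlc P P' hP hP' h
  have hP'ne : ∏ c, gam H u (P' c) ≠ 0 :=
    Finset.prod_ne_zero_iff.mpr fun c _ => gam_ne_zero hH hne (hP' c)
  have hRne : ∏ c, gam H u (R c) ≠ 0 :=
    Finset.prod_ne_zero_iff.mpr fun c _ => gam_ne_zero hH hne (hR c)
  refine ⟨p + m, by omega, _, prod_gam_append_mem hH hne hN horb P' R hP' hR h2,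
    mul_ne_zero hP'ne hRne, ?_⟩
  rw [← mul_assoc, div_mul_cancel₀ _ hP'ne]
  exact prod_gam_append_mem hH hne hN horb P R hP hR h1

theorem prod_lin_eq {p : ℕ} (P : Fin p → Fin (n + 1) → A) :
    ∏ c, ∏ r, lin H u (P c r) = ∏ a, lin H u a ^ (∑ c, occ (P c) a) := by
  have h1 : ∀ c, ∏ r, lin H u (P c r) = ∏ a, lin H u a ^ occ (P c) a := by
    intro c
    rw [← Finset.prod_fiberwise Finset.univ (P c) (fun r => lin H u (P c r))]
    refine Finset.prod_congr rfl fun a _ => ?_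
    rw [Finset.prod_congr rfl (g := fun _ => lin H u a) (fun r hr => by
      rw [(Finset.mem_filter.mp hr).2]), Finset.prod_const]
    rfl
  rw [Finset.prod_congr rfl fun c _ => h1 c, Finset.prod_comm]
  refine Finset.prod_congr rfl fun a _ => ?_
  rw [Finset.prod_pow_eq_pow_sum]

theorem prod_gam_div (hne : ∀ a, lin H u a ≠ 0) {p : ℕ} (P P' : Fin p → Fin (n + 1) → A)
    (h : ∀ a, ∑ c, occ (P c) a = ∑ c, occ (P' c) a) :
    (∏ c, gam H u (P c)) / (∏ c, gam H u (P' c)) = (∏ c, brk H (P c)) / ∏ c, brk H (P' c) := by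
  have h1 : ∀ Q : Fin p → Fin (n + 1) → A, ∏ c, gam H u (Q c) =
      (∏ c, brk H (Q c)) / ∏ a, lin H u a ^ (∑ c, occ (Q c) a) := by
    intro Q
    rw [← prod_lin_eq, ← Finset.prod_div_distrib]
    rfl
  have h2 : ∏ a, lin H u a ^ (∑ c, occ (P' c) a) ≠ 0 :=
    Finset.prod_ne_zero_iff.mpr fun a _ => pow_ne_zero _ (hne a)
  have h3 : ∏ a, lin H u a ^ (∑ c, occ (P c) a) = ∏ a, lin H u a ^ (∑ c, occ (P' c) a) :=
    Finset.prod_congr rfl fun a _ => by rw [h a]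
  rw [h1, h1, h3]
  exact div_div_div_cancel_right₀ h2 _ _

theorem exists_ne_zero_mem_arr (hH : GenPos B H) (hne : ∀ a, lin H u a ≠ 0)
    {N : ℕ} (hN : 0 < N) {δ : A → ℕ} (horb : OrbCond B H u N δ) (hδ0 : ∀ a, 0 < δ a)
    (hδN : ∀ a, δ a < N) (hlc : (n + 1) * N ≤ ∑ a, (N - δ a)) :
    ∃ m : ℕ, 1 ≤ m ∧ ∃ W ∈ ArrReg B k H u m, W ≠ 0 := by
  obtain ⟨m, hm, W, hW, hW0, -⟩ := ratio_mem_arr (k := k) hH hne hN horb hδ0 hδN hlc (p := 0)
    (fun c => c.elim0) (fun c => c.elim0) (fun c => c.elim0) (fun c => c.elim0)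
    (Or.inl fun _ => rfl)
  exact ⟨m, hm, W, hW, hW0⟩

end Pf72953.Var
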