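import Mathlib
import Pool.Agent.Lib.Pf72953v.Defs
import Pool.Agent.Lib.Pf72953v.Block

/-!
Module Pf72953v.Est: the main estimate.

Sketch (compare `Pf72953.main_estimate` in `Pool/Agent/Lib/Pf72953/Estimate.lean`, whose structure and
whose cases are the same).  Let `w`, `c : ι → E`, `t : E`, `htb` be as in the definition of `GoodL`,
`ι = ιB ⊕ (ιF ⊕ Σ i, Fin (n i))`.  `Fintype.card ι = dimension k L = dimension k E`
(`card_eq_of_isTranscendenceBasis`), `w` is divisorial on `L` (`IsDivisorial.of_comap`), the family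
`algebraMap ∘ c` is adapted to `w` (`Adapted.map`), a log basis (`Adapted.logBasis`, with
`Adapted.prod : ∏ w (c i) = w t`).
For every `i` choose an injective tuple `J i` with `w (gam (H i) (u i) (J i))` maximal among injective
tuples (finite nonempty set by `hcard`).  By `jac_tot` with bases `cB`, `cF`
`jac htb (tot x y u) = jac x * jac y * (∏ ℓ_0^(n+1)/brk) * jac htb (tot cB cF (newu H u J))`.
LOG BOUND: by `LogBasis.jac_le` for `tot cB cF (newu H u J)`
`w (jac htb (tot cB cF newu)) * w t ≤ ∏ w (cB) * ∏ w (cF) * ∏_i ∏_r w (ℓ_{J i (r+1)}/ℓ_{J i 0})`, and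
`w (ℓ_0^(n+1)/brk) * ∏_r w (ℓ_{r+1}/ℓ_0) = (w (gam (J i)))⁻¹`.  So
(*) `w (jac htb (tot x y u)) * w t ≤ (w (jac hB x) * ∏ w cB) * (w (jac hF y) * ∏ w cF) * ∏ i, (w (gam (J i)))⁻¹`.
CASE 1, `w` nontrivial on `B`: `cB` and the bound for `h` from `hh` (as in `main_estimate`), `cF` and the
bound `≤ 1` for `g` from `WReg.log_bound` or, `w` trivial on `F`, from `LogBasis.of_trivial`;
`w (G i) ≤ w (gam (J i)) ^ m`; multiply, cancel `w t ^ m`.
CASE 2, `w` trivial on `B`: `algebraMap E L t` is a uniformizer of `w` (`isUnif_map`), `cB = x` with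
`LogBasis.of_trivial`, `jac hx x = 1`.
 2a, `w` nontrivial on `F`: `WReg.log_bound` gives the bound `w t' ^ m` with `w t' < 1`, so `≤ w t ^ m`.
 2b, `w` trivial on `F` and for some `i` not all `w (ℓ_a)` are equal: `w (G i) ≤ (w (gam (J i)) * w t) ^ m`.
 In 2a, 2b use (*) and cancel `w t ^ m`.
 2c, `w` trivial on `F` and for every `i` all `w (ℓ_a)`, `a ∈ A i`, are equal: use the regular basis
 (`Adapted.regBasis`) and `RegBasis.jac_le` for `tot x y (newu H u J)` (all entries have value `≤ 1`,
 those of `newu` value `1`): `w (jac htb (tot x y u)) ≤ ∏ i, w (ℓ_{J i 0}) ^ (n i + 1)` (brackets have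
 value `1`, `val_eq_one_of_isIntegral`), and `w (G i) ≤ w (gam (J i)) ^ m = (w (ℓ_{J i 0}) ^ (n i + 1))⁻¹ ^ m`,
 `w h ≤ 1`, `w g ≤ 1`.
-/

set_option autoImplicit false
set_option linter.style.haveILetI false

open scoped WithZero
open Polynomial
open Pf72953

namespace Pf72953.Var

variable {k B F E L ιB ιF I : Type*} [Field k] [CharZero k] [Field B] [Field F] [Field E] [Field L]
  [Algebra k B] [Algebra k F] [Algebra k E] [Algebra k L] [Algebra B E] [Algebra B L]
  [Algebra E L] [Algebra F L] [IsScalarTower k B L] [IsScalarTower k F L]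
  [IsScalarTower k E L] [IsScalarTower B E L]
  [Fintype ιB] [DecidableEq ιB] [Fintype ιF] [DecidableEq ιF] [Fintype I] [DecidableEq I]
  [Algebra.EssFiniteType k B] [Algebra.EssFiniteType k F] [Algebra.EssFiniteType k E]
  [Algebra.EssFiniteType k L] [FiniteDimensional E L]
  {n : I → ℕ} {A : I → Type*} [∀ i, Fintype (A i)] [∀ i, DecidableEq (A i)]

omit [CharZero k] [Field B] [Field F] [Field E] [Algebra k B] [Algebra k F] [Algebra k E]
  [Algebra B E] [Algebra B L] [Algebra k L]
  [Algebra E L] [Algebra F L] [IsScalarTower k B L] [IsScalarTower k F L]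
  [IsScalarTower k E L] [IsScalarTower B E L]
  [Fintype ιB] [DecidableEq ιB] [Fintype ιF] [DecidableEq ιF] [Fintype I] [DecidableEq I]
  [Algebra.EssFiniteType k B] [Algebra.EssFiniteType k F] [Algebra.EssFiniteType k E]
  [Algebra.EssFiniteType k L] [FiniteDimensional E L] in
theorem exists_max_tuple (w : Valuation L ℤᵐ⁰) (H : ∀ i, A i → Fin (n i + 1) → L)
    (u : ∀ i, Fin (n i) → L) (hcard : ∀ i, n i + 1 ≤ Fintype.card (A i)) (i : I) :
    ∃ J : Fin (n i + 1) → A i, Function.Injective J ∧
      ∀ J' : Fin (n i + 1) → A i, Function.Injective J' →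
        w (gam (H i) (u i) J') ≤ w (gam (H i) (u i) J) := by
  classical
  have hne : (Finset.univ.filter fun J : Fin (n i + 1) → A i => Function.Injective J).Nonempty := by
    have : Fintype.card (Fin (n i + 1)) ≤ Fintype.card (A i) := by simpa using hcard i
    obtain ⟨f⟩ := Function.Embedding.nonempty_of_card_le this
    exact ⟨f, by simpa using f.injective⟩
  obtain ⟨J, hJ, hmax⟩ := Finset.exists_max_image _ (fun J => w (gam (H i) (u i) J)) hne
  refine ⟨J, by simpa using hJ, fun J' hJ' => hmax J' (by simpa using hJ')⟩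

omit [CharZero k] [Field B] [Field F] [Field E] [Algebra k B] [Algebra k F] [Algebra k E]
  [Algebra B E] [Algebra B L] [Algebra k L]
  [Algebra E L] [Algebra F L] [IsScalarTower k B L] [IsScalarTower k F L]
  [IsScalarTower k E L] [IsScalarTower B E L]
  [Fintype ιB] [DecidableEq ιB] [Fintype ιF] [DecidableEq ιF] [Fintype I] [DecidableEq I]
  [Algebra.EssFiniteType k B] [Algebra.EssFiniteType k F] [Algebra.EssFiniteType k E]
  [Algebra.EssFiniteType k L] [FiniteDimensional E L] [∀ i, Fintype (A i)]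
  [∀ i, DecidableEq (A i)] in
theorem val_newu (w : Valuation L ℤᵐ⁰) (H : ∀ i, A i → Fin (n i + 1) → L)
    (u : ∀ i, Fin (n i) → L) (J : ∀ i, Fin (n i + 1) → A i) (i : I)
    (hb : brk (H i) (J i) ≠ 0) (h0 : ∀ r, lin (H i) (u i) (J i r) ≠ 0) :
    w (lin (H i) (u i) (J i 0) ^ (n i + 1) / brk (H i) (J i)) *
      ∏ r, w (newu H u J i r) = (w (gam (H i) (u i) (J i)))⁻¹ := by
  have h1 : w (lin (H i) (u i) (J i 0)) ≠ 0 := (Valuation.ne_zero_iff w).mpr (h0 0)
  have h2 : w (brk (H i) (J i)) ≠ 0 := (Valuation.ne_zero_iff w).mpr hb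
  unfold newu gam
  simp only [map_div₀, map_pow, map_prod, Finset.prod_div_distrib, Finset.prod_const,
    Finset.card_univ, Fintype.card_fin, inv_div]
  rw [Fin.prod_univ_succ, pow_succ]
  field_simp

omit [Algebra.EssFiniteType k B] [Algebra.EssFiniteType k F] [Algebra.EssFiniteType k L]
  [∀ i, Fintype (A i)] [∀ i, DecidableEq (A i)] in
/-- the logarithmic estimate -/
theorem log_estimate {x : ιB → B} {y : ιF → F} (H : ∀ i, A i → Fin (n i + 1) → L)
    (u : ∀ i, Fin (n i) → L) (hH : ∀ i, GenPos B (H i)) (hne : ∀ i a, lin (H i) (u i) a ≠ 0)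
    (w : Valuation L ℤᵐ⁰) {cL : ιB ⊕ (ιF ⊕ (Σ i, Fin (n i))) → L} (hlog : LogBasis k w cL)
    {cB : ιB → B} {cF : ιF → F} (hB : IsTranscendenceBasis k cB) (hF : IsTranscendenceBasis k cF)
    (J : ∀ i, Fin (n i + 1) → A i) (hJ : ∀ i, Function.Injective (J i)) :
    w (jac hlog.tb (tot x y u)) * ∏ i, w (cL i) ≤
      (w (algebraMap B L (jac hB x)) * ∏ i, w (algebraMap B L (cB i))) *
      (w (algebraMap F L (jac hF y)) * ∏ i, w (algebraMap F L (cF i))) *
      ∏ i, (w (gam (H i) (u i) (J i)))⁻¹ := by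
  have hbrk : ∀ i, brk (H i) (J i) ≠ 0 := fun i => (hH i).brk_ne _ (hJ i)
  rw [jac_tot hB hF hlog.tb x y H u J (fun i => (hH i).alg) hbrk (fun i => hne i _)]
  have h2 := hlog.jac_le (tot cB cF (newu H u J))
  have he : ∏ i, w (tot cB cF (newu H u J) i) = (∏ i, w (algebraMap B L (cB i))) *
        ((∏ i, w (algebraMap F L (cF i))) * ∏ i, ∏ r, w (newu H u J i r)) := by
    rw [Fintype.prod_sum_type, Fintype.prod_sum_type, Fintype.prod_sigma]
    rfl
  rw [he] at h2
  rw [map_mul, map_mul, map_mul, map_prod]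
  have h3 : ∏ i, (w (gam (H i) (u i) (J i)))⁻¹ =
      (∏ i, w (lin (H i) (u i) (J i 0) ^ (n i + 1) / brk (H i) (J i))) *
        ∏ i, ∏ r, w (newu H u J i r) := by
    rw [← Finset.prod_mul_distrib]
    refine Finset.prod_congr rfl fun i _ => ?_
    rw [val_newu w H u J i (hbrk i) (fun r => hne i _)]
  rw [h3]
  calc _ = (w (jac hlog.tb (tot cB cF (newu H u J))) * ∏ i, w (cL i)) *
        (w (algebraMap B L (jac hB x)) * w (algebraMap F L (jac hF y)) *
          ∏ i, w (lin (H i) (u i) (J i 0) ^ (n i + 1) / brk (H i) (J i))) := by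
        simp only [mul_comm, mul_left_comm, mul_assoc]
    _ ≤ ((∏ i, w (algebraMap B L (cB i))) *
        ((∏ i, w (algebraMap F L (cF i))) * ∏ i, ∏ r, w (newu H u J i r))) *
        (w (algebraMap B L (jac hB x)) * w (algebraMap F L (jac hF y)) *
          ∏ i, w (lin (H i) (u i) (J i 0) ^ (n i + 1) / brk (H i) (J i))) := by
        gcongr
    _ = _ := by simp only [mul_comm, mul_left_comm, mul_assoc]

/-- **Main estimate.** -/
theorem prod_mem_GoodL {x : ιB → B} (hx : IsTranscendenceBasis k x) {y : ιF → F}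
    (hy : IsTranscendenceBasis k y) (β : L) (hβ : IntermediateField.adjoin E {β} = ⊤)
    (hβB : IsIntegral B β) (H : ∀ i, A i → Fin (n i + 1) → L) (u : ∀ i, Fin (n i) → L)
    (hH : ∀ i, GenPos B (H i)) (hne : ∀ i a, lin (H i) (u i) a ≠ 0)
    (hcard : ∀ i, n i + 1 ≤ Fintype.card (A i))
    {m : ℕ} {h : B} (hh : h ∈ WOrb k E x m) {g : F} (hg : g ∈ WReg k y m)
    {G : I → L} (hG : ∀ i, G i ∈ ArrReg B k (H i) (u i) m) :
    algebraMap B L h * algebraMap F L g * ∏ i, G i ∈ GoodL k E (tot x y u) m := by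
  classical
  intro w hv c t hc ht htb
  have hcardL : Fintype.card (ιB ⊕ (ιF ⊕ (Σ i, Fin (n i)))) = dimension k L :=
    card_eq_of_isTranscendenceBasis htb
  have htbE : IsTranscendenceBasis k c := IsTranscendenceBasis.of_comp_algebraMap htb
  have hcardE : Fintype.card (ιB ⊕ (ιF ⊕ (Σ i, Fin (n i)))) = dimension k E :=
    card_eq_of_isTranscendenceBasis htbE
  have hwL : IsDivisorial k L w := IsDivisorial.of_comap (hcardL.symm.trans hcardE) hv
  have hcL : Adapted k w (fun i => algebraMap E L (c i)) (algebraMap E L t) := hc.map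
  have hwt : w (algebraMap E L t) ≠ 0 := by
    rw [Valuation.ne_zero_iff]; simpa using ht.ne_zero
  have hwtpos : 0 < w (algebraMap E L t) := zero_lt_iff.mpr hwt
  have hlog := hcL.logBasis hcardL
  choose J hJ hJmax using exists_max_tuple w H u hcard
  have hbrk : ∀ i, brk (H i) (J i) ≠ 0 := fun i => (hH i).brk_ne _ (hJ i)
  have hgam0 : ∀ i, gam (H i) (u i) (J i) ≠ 0 := fun i =>
    div_ne_zero (hbrk i) (Finset.prod_ne_zero_iff.mpr fun r _ => hne i _)
  have hgam : ∀ i, w (gam (H i) (u i) (J i)) ≠ 0 := fun i =>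
    (Valuation.ne_zero_iff w).mpr (hgam0 i)
  have hGle : ∀ i, w (G i) ≤ w (gam (H i) (u i) (J i)) ^ m := fun i =>
    (hG i w hwL (J i) (hJ i) (hJmax i)).1
  -- the common final step of the logarithmic cases
  have key : ∀ {cB : ιB → B} {cF : ιF → F} (hB : IsTranscendenceBasis k cB)
      (hF : IsTranscendenceBasis k cF) (α b : ℤᵐ⁰) (γ : I → ℤᵐ⁰),
      w (algebraMap B L h) * (w (algebraMap B L (jac hB x)) *
        ∏ i, w (algebraMap B L (cB i))) ^ m ≤ α ^ m →
      w (algebraMap F L g) * (w (algebraMap F L (jac hF y)) *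
        ∏ i, w (algebraMap F L (cF i))) ^ m ≤ b ^ m →
      (∀ i, w (G i) ≤ (w (gam (H i) (u i) (J i)) * γ i) ^ m) →
      α * b * ∏ i, γ i ≤ w (algebraMap E L t) →
      w (algebraMap B L h * algebraMap F L g * ∏ i, G i) * w (jac htb (tot x y u)) ^ m ≤ 1 := by
    intro cB cF hB hF α b γ h1 h2 h3 h4
    have h5 := log_estimate (x := x) (y := y) H u hH hne w hlog hB hF J hJ
    rw [hcL.prod] at h5
    have hpos : 0 < w (algebraMap E L t) ^ m := pow_pos hwtpos m
    refine le_of_mul_le_mul_right (a := w (algebraMap E L t) ^ m) ?_ hpos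
    rw [one_mul]
    set X := w (algebraMap B L (jac hB x)) * ∏ i, w (algebraMap B L (cB i)) with hX
    set Y := w (algebraMap F L (jac hF y)) * ∏ i, w (algebraMap F L (cF i)) with hY
    have h6 : ∏ i, w (G i) ≤ (∏ i, w (gam (H i) (u i) (J i))) ^ m * (∏ i, γ i) ^ m := by
      rw [← mul_pow, ← Finset.prod_mul_distrib, ← Finset.prod_pow]
      exact Finset.prod_le_prod' fun i _ => h3 i
    have h7 : (∏ i, w (gam (H i) (u i) (J i))) ^ m *
        (∏ i, (w (gam (H i) (u i) (J i)))⁻¹) ^ m = 1 := by
      rw [← mul_pow, ← Finset.prod_mul_distrib,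
        Finset.prod_congr rfl fun i _ => mul_inv_cancel₀ (hgam i)]
      simp
    calc _ = w (algebraMap B L h) * w (algebraMap F L g) * (∏ i, w (G i)) *
          (w (jac htb (tot x y u)) * w (algebraMap E L t)) ^ m := by
          rw [map_mul, map_mul, map_prod, mul_pow]
          simp only [mul_assoc]
      _ ≤ w (algebraMap B L h) * w (algebraMap F L g) *
          ((∏ i, w (gam (H i) (u i) (J i))) ^ m * (∏ i, γ i) ^ m) *
          (X * Y * ∏ i, (w (gam (H i) (u i) (J i)))⁻¹) ^ m := by
          gcongr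
      _ = (w (algebraMap B L h) * X ^ m) * (w (algebraMap F L g) * Y ^ m) * (∏ i, γ i) ^ m *
          ((∏ i, w (gam (H i) (u i) (J i))) ^ m *
            (∏ i, (w (gam (H i) (u i) (J i)))⁻¹) ^ m) := by
          rw [mul_pow, mul_pow]
          simp only [mul_comm, mul_left_comm, mul_assoc]
      _ = (w (algebraMap B L h) * X ^ m) * (w (algebraMap F L g) * Y ^ m) * (∏ i, γ i) ^ m := by
          rw [h7, mul_one]
      _ ≤ α ^ m * b ^ m * (∏ i, γ i) ^ m := by gcongr
      _ = (α * b * ∏ i, γ i) ^ m := by rw [mul_pow, mul_pow]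
      _ ≤ w (algebraMap E L t) ^ m := pow_le_pow_left' h4 m
  by_cases hnt : ∃ a : B, a ≠ 0 ∧ w (algebraMap B L a) ≠ 1
  · -- `w` nontrivial on `B`
    obtain ⟨cB, hcB', hbB'⟩ := hh (w.comap (algebraMap E L)) hv (by
      obtain ⟨a, ha0, ha⟩ := hnt
      refine ⟨a, ha0, ?_⟩
      rwa [Valuation.comap_apply, ← IsScalarTower.algebraMap_apply]) t ht
    have hbB : w (algebraMap B L h) * (w (algebraMap B L (jac hcB'.tb x)) *
        ∏ i, w (algebraMap B L (cB i))) ^ m ≤ w (algebraMap E L t) ^ m := by
      simp only [Valuation.comap_apply, ← IsScalarTower.algebraMap_apply B E L] at hbB'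
      exact hbB'
    obtain ⟨cF, hcF, hbF⟩ : ∃ (cF : ιF → F) (hcF : IsTranscendenceBasis k cF),
        w (algebraMap F L g) * (w (algebraMap F L (jac hcF y)) *
          ∏ i, w (algebraMap F L (cF i))) ^ m ≤ 1 ^ m := by
      rw [one_pow]
      by_cases hntF : ∃ a : F, a ≠ 0 ∧ w (algebraMap F L a) ≠ 1
      · have hF : IsDivisorial k F (w.comap (algebraMap F L)) := hwL.restrict hntF
        obtain ⟨cF, hcF, tF, htF0, htF1, hbF⟩ := WReg.log_bound hy hg hF
        exact ⟨cF, hcF.tb, hbF.trans (pow_le_one' htF1.le m)⟩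
      · push Not at hntF
        have hone : ∀ a : F, w (algebraMap F L a) ≤ 1 := by
          intro a
          rcases eq_or_ne a 0 with rfl | ha
          · simp
          · exact (hntF a ha).le
        refine ⟨y, hy, ?_⟩
        refine mul_le_one' (hone _) (pow_le_one' (mul_le_one' (hone _) ?_) m)
        exact Finset.prod_le_one' fun i _ => hone _
    refine key hcB'.tb hcF (w (algebraMap E L t)) 1 (fun _ => 1) hbB hbF ?_ ?_
    · intro i
      rw [mul_one]
      exact hGle i
    · simp
  · -- `w` trivial on `B`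
    push Not at hnt
    have hunif : IsUnif w (algebraMap E L t) := isUnif_map hcardE hnt hc ht β hβ hβB
    have honeB : ∀ a : B, w (algebraMap B L a) ≤ 1 := by
      intro a
      rcases eq_or_ne a 0 with rfl | ha
      · simp
      · exact (hnt a ha).le
    have hbB : w (algebraMap B L h) * (w (algebraMap B L (jac hx x)) *
        ∏ i, w (algebraMap B L (x i))) ^ m ≤ 1 ^ m := by
      rw [one_pow]
      refine mul_le_one' (honeB _) (pow_le_one' (mul_le_one' (honeB _) ?_) m)
      exact Finset.prod_le_one' fun i _ => honeB _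
    by_cases hntF : ∃ a : F, a ≠ 0 ∧ w (algebraMap F L a) ≠ 1
    · -- 2a
      have hF : IsDivisorial k F (w.comap (algebraMap F L)) := hwL.restrict hntF
      obtain ⟨cF, hcF, tF, htF0, htF1, hbF⟩ := WReg.log_bound hy hg hF
      refine key hx hcF.tb 1 (w (algebraMap E L t)) (fun _ => 1) hbB
        (hbF.trans (pow_le_pow_left' (hunif.le _ htF1) m)) ?_ ?_
      · intro i
        rw [mul_one]
        exact hGle i
      · simp
    · push Not at hntF
      have honeF : ∀ a : F, w (algebraMap F L a) ≤ 1 := by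
        intro a
        rcases eq_or_ne a 0 with rfl | ha
        · simp
        · exact (hntF a ha).le
      have hbF : w (algebraMap F L g) * (w (algebraMap F L (jac hy y)) *
          ∏ i, w (algebraMap F L (y i))) ^ m ≤ 1 ^ m := by
        rw [one_pow]
        refine mul_le_one' (honeF _) (pow_le_one' (mul_le_one' (honeF _) ?_) m)
        exact Finset.prod_le_one' fun i _ => honeF _
      by_cases hdiff : ∃ i₀, ∃ a a', w (lin (H i₀) (u i₀) a) ≠ w (lin (H i₀) (u i₀) a')
      · -- 2b
        obtain ⟨i₀, hi₀⟩ := hdiff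
        refine key hx hy 1 1 (fun i => if i = i₀ then w (algebraMap E L t) else 1) hbB hbF ?_ ?_
        · intro i
          split_ifs with hi
          · subst hi
            exact (hG i w hwL (J i) (hJ i) (hJmax i)).2 hnt hi₀ _ hunif
          · rw [mul_one]
            exact hGle i
        · simp
      · -- 2c
        push Not at hdiff
        have hreg := hcL.regBasis hcardL hunif
        have hwbrk : ∀ i, w (brk (H i) (J i)) = 1 := by
          intro i
          refine val_eq_one_of_isIntegral hnt (hbrk i) ?_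
          have : brk (H i) (J i) ∈ integralClosure B L := by
            unfold brk
            rw [Matrix.det_apply]
            refine Subalgebra.sum_mem _ fun σ _ => ?_
            rw [Units.smul_def]
            exact zsmul_mem (Subalgebra.prod_mem _ fun r _ =>
              ((hH i).alg _ _).isIntegral) _
          exact this
        have hj := jac_tot hx hy htb x y H u J (fun i => (hH i).alg) hbrk (fun i => hne i _)
        rw [jac_self, jac_self, map_one, map_one, one_mul, one_mul] at hj
        have hle := hreg.jac_le (tot x y (newu H u J)) (by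
          rintro (i | i | ⟨i, r⟩)
          · exact honeB _
          · exact honeF _
          · simp only [tot, Sum.elim_inr, newu, map_div₀]
            rw [hdiff i _ (J i 0), div_self ((Valuation.ne_zero_iff w).mpr (hne i _))])
        have hjle : w (jac htb (tot x y u)) ≤
            ∏ i, w (lin (H i) (u i) (J i 0)) ^ (n i + 1) := by
          rw [hj, map_mul, map_prod]
          refine (mul_le_mul' le_rfl hle).trans ?_
          rw [mul_one]
          refine (Finset.prod_congr rfl fun i _ => ?_).le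
          rw [map_div₀, hwbrk, div_one, map_pow]
        have hGle' : ∀ i, w (G i) ≤ ((w (lin (H i) (u i) (J i 0)) ^ (n i + 1))⁻¹) ^ m := by
          intro i
          refine (hGle i).trans_eq ?_
          congr 1
          unfold gam
          rw [map_div₀, hwbrk, map_prod, one_div]
          congr 1
          rw [Finset.prod_congr rfl fun r _ => hdiff i (J i r) (J i 0)]
          simp
        have hc1 : (∏ i, (w (lin (H i) (u i) (J i 0)) ^ (n i + 1))⁻¹) ^ m *
            (∏ i, w (lin (H i) (u i) (J i 0)) ^ (n i + 1)) ^ m = 1 := by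
          rw [← mul_pow, ← Finset.prod_mul_distrib, Finset.prod_congr rfl fun i _ =>
            inv_mul_cancel₀ (pow_ne_zero _ ((Valuation.ne_zero_iff w).mpr (hne i (J i 0))))]
          simp
        calc w (algebraMap B L h * algebraMap F L g * ∏ i, G i) * w (jac htb (tot x y u)) ^ m
            = w (algebraMap B L h) * w (algebraMap F L g) * (∏ i, w (G i)) *
              w (jac htb (tot x y u)) ^ m := by
              rw [map_mul, map_mul, map_prod]
          _ ≤ 1 * 1 * (∏ i, ((w (lin (H i) (u i) (J i 0)) ^ (n i + 1))⁻¹) ^ m) *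
              (∏ i, w (lin (H i) (u i) (J i 0)) ^ (n i + 1)) ^ m :=
              mul_le_mul' (mul_le_mul' (mul_le_mul' (honeB _) (honeF _))
                (Finset.prod_le_prod' fun i _ => hGle' i)) (pow_le_pow_left' hjle m)
          _ = 1 := by rw [one_mul, one_mul, Finset.prod_pow, hc1]

end Pf72953.Var
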