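import Mathlib
import Pool.Agent.Lib.Pf72953v.Defs

/-!
Module Pf72953v.Factor: ratios in one factor are ratios of good forms.
-/

set_option autoImplicit false
set_option linter.style.haveILetI false

open Pf72953

namespace Pf72953.Var

theorem mem_ratios_of_factor {k E L ι Φ : Type*} [Field k] [CharZero k] [Field E] [Field L]
    [Algebra k E] [Algebra k L] [Algebra E L] [Fintype ι] [DecidableEq ι] [Fintype Φ]
    [DecidableEq Φ] {a : ι → L} (𝒲 : Φ → ℕ → Set L)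
    (hmul : ∀ f m m', ∀ W ∈ 𝒲 f m, ∀ W' ∈ 𝒲 f m', W * W' ∈ 𝒲 f (m + m'))
    (hprod : ∀ m : ℕ, ∀ W : Φ → L, (∀ f, W f ∈ 𝒲 f m) → ∏ f, W f ∈ GoodL k E a m)
    (hne : ∀ f, ∃ m : ℕ, 1 ≤ m ∧ ∃ W ∈ 𝒲 f m, W ≠ 0) (f₀ : Φ) (θ : L)
    (hθ : ∃ m : ℕ, 1 ≤ m ∧ ∃ W ∈ 𝒲 f₀ m, W ≠ 0 ∧ θ * W ∈ 𝒲 f₀ m) :
    θ ∈ Ratios k E a := by
  classical
  have hpow : ∀ f m W, W ∈ 𝒲 f m → ∀ l : ℕ, 1 ≤ l → W ^ l ∈ 𝒲 f (m * l) := by
    intro f m W hW l hl
    induction l, hl using Nat.le_induction with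
    | base => simpa using hW
    | succ l _ ih =>
      rw [pow_succ, Nat.mul_succ]
      exact hmul f _ _ _ ih _ hW
  choose mf hmf Wf hWf hWf0 using hne
  obtain ⟨m₀, hm₀, W₀, hW₀, hW₀0, hθW⟩ := hθ
  set P : ℕ := ∏ f, mf f with hP
  have hP1 : 1 ≤ P := Finset.one_le_prod' fun f _ => hmf f
  set M : ℕ := m₀ * P with hM
  have hM1 : 1 ≤ M := Nat.mul_pos hm₀ hP1
  -- nonzero elements of weight M
  have hV : ∀ f, ∃ V ∈ 𝒲 f M, V ≠ 0 := by
    intro f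
    have hdvd : mf f ∣ M := Dvd.dvd.mul_left (Finset.dvd_prod_of_mem mf (Finset.mem_univ f)) _
    obtain ⟨l, hl⟩ := hdvd
    have hl1 : 1 ≤ l := by
      rcases Nat.eq_zero_or_pos l with h | h
      · rw [h, mul_zero] at hl; omega
      · exact h
    exact ⟨Wf f ^ l, by rw [hl]; exact hpow f _ _ (hWf f) l hl1, pow_ne_zero _ (hWf0 f)⟩
  choose V hVmem hV0 using hV
  have hX : W₀ ^ P ∈ 𝒲 f₀ M := hpow f₀ _ _ hW₀ P hP1
  have hX' : θ * W₀ ^ P ∈ 𝒲 f₀ M := by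
    rcases Nat.lt_or_ge 1 P with h | h
    · have h1 : W₀ ^ (P - 1) ∈ 𝒲 f₀ (m₀ * (P - 1)) := hpow f₀ _ _ hW₀ (P - 1) (by omega)
      have h2 := hmul f₀ _ _ _ hθW _ h1
      have h3 : m₀ + m₀ * (P - 1) = M := by
        rw [hM]; obtain ⟨q, hq⟩ : ∃ q, P = q + 1 := ⟨P - 1, by omega⟩
        rw [hq]; simp; ring
      rw [h3] at h2
      have h4 : θ * W₀ * W₀ ^ (P - 1) = θ * W₀ ^ P := by
        rw [mul_assoc, ← pow_succ', Nat.sub_add_cancel hP1]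
      rwa [h4] at h2
    · have hP' : P = 1 := le_antisymm h hP1
      rw [hM, hP', pow_one, mul_one]
      exact hθW
  set V₁ : Φ → L := Function.update V f₀ (W₀ ^ P) with hV₁
  set V₂ : Φ → L := Function.update V f₀ (θ * W₀ ^ P) with hV₂
  have hm1 : ∀ f, V₁ f ∈ 𝒲 f M := by
    intro f
    by_cases h : f = f₀
    · subst h; rw [hV₁, Function.update_self]; exact hX
    · rw [hV₁, Function.update_of_ne h]; exact hVmem f
  have hm2 : ∀ f, V₂ f ∈ 𝒲 f M := by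
    intro f
    by_cases h : f = f₀
    · subst h; rw [hV₂, Function.update_self]; exact hX'
    · rw [hV₂, Function.update_of_ne h]; exact hVmem f
  refine ⟨M, hM1, ∏ f, V₁ f, hprod M V₁ hm1, ?_, ?_⟩
  · rw [Finset.prod_ne_zero_iff]
    intro f _
    by_cases h : f = f₀
    · subst h; rw [hV₁, Function.update_self]; exact pow_ne_zero _ hW₀0
    · rw [hV₁, Function.update_of_ne h]; exact hV0 f
  · have : θ * ∏ f, V₁ f = ∏ f, V₂ f := by
      rw [hV₁, hV₂, Finset.prod_update_of_mem (Finset.mem_univ f₀),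
        Finset.prod_update_of_mem (Finset.mem_univ f₀), mul_assoc]
    rw [this]
    exact hprod M V₂ hm2

end Pf72953.Var
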