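import Mathlib
import Pool.Agent.Lib.Pf72953v.Defs
import Pool.Agent.Lib.Pf72953v.Diff
import Pool.Agent.Lib.Pf72953v.Ratio

/-!
Module Pf72953v.LinNe: the linear forms do not vanish at the point; the number of forms.

Sketch.
`lin_ne_zero`: suppose `lin (H i) (u i) a = 0`.  By `D_lin` (with `hx`) `0 = ∑ j, H a (j+1) • D (u i j) + ∑ b, ρ b •
D (x b)`.  The `D k L (tot x y u s)` form a basis of `Ω[L⁄k]` (`dBasis hxyu`, `dBasis_apply`), so
`H a (j+1) = 0` for all `j`, hence `H a 0 = lin = 0`, `H a = 0`; but `a` belongs to an injective tuple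
(`hcard`) whose bracket is not zero.
`card_lt`: `∑ a, (N - δ a) ≤ card A * (N - 1) < card A * N` and `≥ (n + 1) * N`.
-/

set_option autoImplicit false
set_option linter.style.haveILetI false

open KaehlerDifferential
open Pf72953

namespace Pf72953.Var

theorem card_lt {A : Type*} [Fintype A] {n N : ℕ} {δ : A → ℕ} (hδ0 : ∀ a, 0 < δ a)
    (hδN : ∀ a, δ a < N) (hlc : (n + 1) * N ≤ ∑ a, (N - δ a)) (hN : 0 < N) :
    n + 1 < Fintype.card A := by
  by_contra hcon
  push Not at hcon
  have h1 : ∑ a, (N - δ a) ≤ Fintype.card A • (N - 1) := by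
    refine Finset.sum_le_card_nsmul _ _ _ fun a _ => ?_
    have := hδ0 a
    have := hδN a
    omega
  rw [smul_eq_mul] at h1
  have h2 : Fintype.card A * (N - 1) ≤ (n + 1) * (N - 1) := Nat.mul_le_mul_right _ hcon
  have h3 : (n + 1) * N ≤ (n + 1) * (N - 1) := hlc.trans (h1.trans h2)
  have h4 : N ≤ N - 1 := Nat.le_of_mul_le_mul_left h3 (Nat.succ_pos n)
  omega

theorem lin_ne_zero {k B F L ιB ιF I : Type*} [Field k] [CharZero k] [Field B] [Field F]
    [Field L] [Algebra k B] [Algebra k F] [Algebra k L] [Algebra B L] [Algebra F L]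
    [IsScalarTower k B L] [IsScalarTower k F L] [Fintype ιB] [DecidableEq ιB] [Fintype ιF]
    [DecidableEq ιF] [Fintype I] [DecidableEq I] {n : I → ℕ} {A : I → Type*}
    [∀ i, Fintype (A i)] {x : ιB → B} (hx : IsTranscendenceBasis k x) (y : ιF → F)
    {H : ∀ i, A i → Fin (n i + 1) → L} {u : ∀ i, Fin (n i) → L}
    (hxyu : IsTranscendenceBasis k (tot x y u)) (hH : ∀ i, GenPos B (H i))
    (hcard : ∀ i, n i + 1 ≤ Fintype.card (A i)) (i : I) (a : A i) :
    lin (H i) (u i) a ≠ 0 := by
  intro h0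
  obtain ⟨ρ, hρ⟩ := D_lin (k := k) hx (u i) (hH i).alg a
  rw [h0, map_zero] at hρ
  have hu : ∀ j, D k L (u i j) = dBasis hxyu (Sum.inr (Sum.inr ⟨i, j⟩)) := fun j =>
    (dBasis_apply hxyu (Sum.inr (Sum.inr ⟨i, j⟩))).symm
  have hxb : ∀ b, D k L (algebraMap B L (x b)) = dBasis hxyu (Sum.inl b) := fun b =>
    (dBasis_apply hxyu (Sum.inl b)).symm
  simp only [hu, hxb] at hρ
  have hsucc : ∀ j : Fin (n i), H i a j.succ = 0 := by
    intro j
    have h1 := congrArg (fun z => (dBasis hxyu).repr z (Sum.inr (Sum.inr ⟨i, j⟩))) hρ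
    simp only [map_zero, map_add, map_sum, map_smul, Finsupp.coe_zero, Pi.zero_apply,
      Finsupp.add_apply, Finsupp.finsetSum_apply, Finsupp.smul_apply, Module.Basis.repr_self,
      Finsupp.single_apply, Sum.inr.injEq, Sigma.mk.injEq, heq_eq_eq, true_and, reduceCtorEq,
      if_false, smul_zero, Finset.sum_const_zero, add_zero, smul_eq_mul, mul_ite, mul_one,
      mul_zero, Finset.sum_ite_eq', Finset.sum_ite_eq, Finset.mem_univ, if_true] at h1
    exact h1.symm
  have hzero : H i a 0 = 0 := by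
    have h1 := h0
    unfold lin at h1
    simpa [hsucc] using h1
  have hall : ∀ c, H i a c = 0 := by
    intro c
    refine Fin.cases hzero hsucc c
  obtain ⟨f⟩ : Nonempty (Fin (n i + 1) ↪ A i) :=
    Function.Embedding.nonempty_of_card_le (by rw [Fintype.card_fin]; exact hcard i)
  classical
  have hinj : Function.Injective (fun r => Equiv.swap (f 0) a (f r)) :=
    (Equiv.swap (f 0) a).injective.comp f.injective
  refine (hH i).brk_ne _ hinj ?_
  unfold brk
  refine Matrix.det_eq_zero_of_row_eq_zero 0 fun c => ?_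
  have h2 : Equiv.swap (f 0) a (f 0) = a := Equiv.swap_apply_left _ _
  simpa [h2] using hall c

end Pf72953.Var
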