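import Mathlib
import Pool.Agent.Lib.Pf72953v.Defs

/-!
Module Pf72953v.Solve: the affine coordinates are rational functions of the ratios
`gam J / gam (update J r b)` and of the coefficients.

Sketch.  `gam J / gam (update J (r+1) b) = (brk J / brk (update J (r+1) b)) * (ℓ_b / ℓ_{J (r+1)})`, so
`v r = ℓ_{J (r+1)} / ℓ_b ∈ K₁` for all `r : Fin n` (brackets are in `K₁` and nonzero).  Let `Q` be the matrix
of the rows `J' = update J 0 b`, `Q * (1, u) = ℓ_b • (1, v)`, `det Q = brk (update J 0 b) ≠ 0`, entries of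
`Q⁻¹` in `K₁` (`Matrix.inv_def`, adjugate).  So `(1, u) = ℓ_b • Q⁻¹ (1, v)`; coordinate `0` shows
`ℓ_b⁻¹ ∈ K₁`, the others `u j ∈ K₁`.
-/

set_option autoImplicit false
set_option linter.style.haveILetI false

open Pf72953

namespace Pf72953.Var

theorem brk_mem {K A : Type*} [Field K] {n : ℕ} (K₁ : Subfield K) {H : A → Fin (n + 1) → K}
    (hH : ∀ a j, H a j ∈ K₁) (J : Fin (n + 1) → A) : brk H J ∈ K₁ := by
  unfold brk
  rw [Matrix.det_apply]
  refine sum_mem fun σ _ => ?_
  rw [Units.smul_def]
  exact zsmul_mem (prod_mem fun i _ => hH _ _) _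

theorem lin_eq_sum {K A : Type*} [Field K] {n : ℕ} (H : A → Fin (n + 1) → K) (u : Fin n → K)
    (a : A) : lin H u a = ∑ j, H a j * (Fin.cons 1 u : Fin (n + 1) → K) j := by
  rw [Fin.sum_univ_succ]
  simp [lin]

theorem u_mem {K A : Type*} [Field K] [DecidableEq A] {n : ℕ} (K₁ : Subfield K)
    {H : A → Fin (n + 1) → K} (hH : ∀ a j, H a j ∈ K₁) {u : Fin n → K} (J : Fin (n + 1) → A) (b : A)
    (hJ : brk H J ≠ 0) (hJb : ∀ r, brk H (Function.update J r b) ≠ 0)
    (hne : ∀ a, lin H u a ≠ 0)
    (hζ : ∀ r : Fin n, gam H u J / gam H u (Function.update J r.succ b) ∈ K₁) :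
    ∀ j, u j ∈ K₁ := by
  classical
  -- the ratios of the linear forms
  have hv : ∀ r : Fin n, lin H u (J r.succ) / lin H u b ∈ K₁ := by
    intro r
    have h1 : ∏ s, lin H u (Function.update J r.succ b s) =
        lin H u b * ∏ s ∈ Finset.univ.erase r.succ, lin H u (J s) := by
      rw [← Finset.mul_prod_erase Finset.univ _ (Finset.mem_univ r.succ)]
      congr 1
      · simp
      · refine Finset.prod_congr rfl fun s hs => ?_
        rw [Function.update_of_ne (Finset.ne_of_mem_erase hs)]
    have h2 : ∏ s, lin H u (J s) =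
        lin H u (J r.succ) * ∏ s ∈ Finset.univ.erase r.succ, lin H u (J s) :=
      (Finset.mul_prod_erase Finset.univ _ (Finset.mem_univ r.succ)).symm
    have hP : ∏ s ∈ Finset.univ.erase r.succ, lin H u (J s) ≠ 0 :=
      Finset.prod_ne_zero_iff.mpr fun s _ => hne _
    have h3 : gam H u J / gam H u (Function.update J r.succ b) =
        (brk H J / brk H (Function.update J r.succ b)) * (lin H u b / lin H u (J r.succ)) := by
      unfold gam
      rw [h1, h2]
      have := hJb r.succ
      have h4 := hne b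
      have h5 := hne (J r.succ)
      field_simp
    have h4 : lin H u (J r.succ) / lin H u b = (brk H J / brk H (Function.update J r.succ b)) /
        (gam H u J / gam H u (Function.update J r.succ b)) := by
      rw [h3]
      have := hJb r.succ
      have h4 := hne b
      have h5 := hne (J r.succ)
      field_simp
    rw [h4]
    exact K₁.div_mem (K₁.div_mem (brk_mem K₁ hH _) (brk_mem K₁ hH _)) (hζ r)
  -- the linear system
  let Q₁ : Matrix (Fin (n + 1)) (Fin (n + 1)) K₁ :=
    Matrix.of fun r c => ⟨H (Function.update J 0 b r) c, hH _ _⟩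
  have hQdet : Q₁.det ≠ 0 := by
    intro h0
    apply hJb 0
    have h1 := congrArg K₁.subtype h0
    rw [RingHom.map_det, map_zero] at h1
    exact h1
  have hinv : Q₁⁻¹ * Q₁ = 1 := Matrix.nonsing_inv_mul Q₁ (isUnit_iff_ne_zero.mpr hQdet)
  set v' : Fin (n + 1) → K := Fin.cons 1 (fun r => lin H u (J r.succ) / lin H u b) with hv'
  set u' : Fin (n + 1) → K := Fin.cons 1 u with hu'
  have hv'mem : ∀ r, v' r ∈ K₁ := by
    intro r
    refine Fin.cases ?_ (fun s => ?_) r
    · rw [hv', Fin.cons_zero]; exact K₁.one_mem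
    · rw [hv', Fin.cons_succ]; exact hv s
  have hsys : ∀ r, ∑ c, ((Q₁ r c : K₁) : K) * u' c = lin H u b * v' r := by
    intro r
    have h1 : ∑ c, ((Q₁ r c : K₁) : K) * u' c = lin H u (Function.update J 0 b r) :=
      (lin_eq_sum H u _).symm
    rw [h1]
    refine Fin.cases ?_ (fun s => ?_) r
    · rw [hv', Fin.cons_zero, Function.update_self, mul_one]
    · rw [hv', Fin.cons_succ, Function.update_of_ne (Fin.succ_ne_zero s),
        mul_div_cancel₀ _ (hne b)]
  set X : Fin (n + 1) → K := fun j => ∑ r, ((Q₁⁻¹ j r : K₁) : K) * v' r with hX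
  have hXmem : ∀ j, X j ∈ K₁ := fun j =>
    sum_mem fun r _ => K₁.mul_mem (Q₁⁻¹ j r).2 (hv'mem r)
  have hsol : ∀ j, u' j = lin H u b * X j := by
    intro j
    have h1 : ∑ r, ((Q₁⁻¹ j r : K₁) : K) * ∑ c, ((Q₁ r c : K₁) : K) * u' c = u' j := by
      simp_rw [Finset.mul_sum]
      rw [Finset.sum_comm]
      have h2 : ∀ c, ∑ r, ((Q₁⁻¹ j r : K₁) : K) * (((Q₁ r c : K₁) : K) * u' c) =
          (if j = c then u' c else 0) := by
        intro c
        have h3 : ∑ r, Q₁⁻¹ j r * Q₁ r c = (1 : Matrix _ _ K₁) j c := by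
          rw [← hinv, Matrix.mul_apply]
        have h4 := congrArg K₁.subtype h3
        rw [map_sum] at h4
        simp only [map_mul, Subfield.subtype_apply] at h4
        simp_rw [← mul_assoc]
        rw [← Finset.sum_mul, h4, Matrix.one_apply]
        split_ifs <;> simp
      rw [Finset.sum_congr rfl fun c _ => h2 c]
      simp
    rw [← h1]
    simp_rw [hsys]
    rw [hX]
    simp only
    rw [Finset.mul_sum]
    refine Finset.sum_congr rfl fun r _ => ?_
    ring
  have h0 : (1 : K) = lin H u b * X 0 := by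
    rw [← hsol 0, hu', Fin.cons_zero]
  have hb : lin H u b ∈ K₁ := by
    have hX0 : X 0 ≠ 0 := by
      intro h
      rw [h, mul_zero] at h0
      exact one_ne_zero h0
    have : lin H u b = (X 0)⁻¹ := eq_inv_of_mul_eq_one_left h0.symm
    rw [this]
    exact K₁.inv_mem (hXmem 0)
  intro j
  have := hsol j.succ
  rw [hu', Fin.cons_succ] at this
  rw [this]
  exact K₁.mul_mem hb (hXmem _)

end Pf72953.Var
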