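import Mathlib
import Pool.Agent.Lib.Pf72953v.Est
import Pool.Agent.Lib.Pf72953v.CoreAbs
import Pool.Agent.Lib.Pf72953v.Factor
import Pool.Agent.Lib.Pf72953v.Mult
import Pool.Agent.Lib.Pf72953v.Solve
import Pool.Agent.Lib.Pf72953v.Indep
import Pool.Agent.Lib.Pf72953v.LinNe

/-!
The core theorem after a Galois base change.
-/

set_option autoImplicit false
set_option linter.style.haveILetI false

open scoped WithZero
open Polynomial
open Pf72953

namespace Pf72953.Var

theorem WReg.mul' {k K ι : Type*} [Field k] [CharZero k] [Field K] [Algebra k K] [Fintype ι]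
    [DecidableEq ι] {z : ι → K} {m m' : ℕ} {f g : K} (hf : f ∈ WReg k z m)
    (hg : g ∈ WReg k z m') : f * g ∈ WReg k z (m + m') := by
  intro w hw c hc
  rw [map_mul, pow_add, mul_mul_mul_comm]
  exact mul_le_one' (hf w hw c hc) (hg w hw c hc)

theorem LogBasis.vol_eq' {k K ι : Type*} [Field k] [CharZero k] [Field K] [Algebra k K]
    [Fintype ι] [DecidableEq ι] {w : Valuation K ℤᵐ⁰} {c c' : ι → K} (hc : LogBasis k w c)
    (hc' : LogBasis k w c') (a : ι → K) :
    w (jac hc.tb a) * ∏ i, w (c i) = w (jac hc'.tb a) * ∏ i, w (c' i) :=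
  LogBasis.vol_eq hc hc' a

theorem WOrb.mul' {k B E ι : Type*} [Field k] [CharZero k] [Field B] [Field E] [Algebra k B]
    [Algebra k E] [Algebra B E] [Fintype ι] [DecidableEq ι] {x : ι → B} {m m' : ℕ} {h g : B}
    (hh : h ∈ WOrb k E x m) (hg : g ∈ WOrb k E x m') : h * g ∈ WOrb k E x (m + m') := by
  intro v hv hnt t ht
  obtain ⟨c, hc, hb⟩ := hh v hv hnt t ht
  obtain ⟨c', hc', hb'⟩ := hg v hv hnt t ht
  have h1 := LogBasis.vol_eq hc hc' x
  simp only [Valuation.comap_apply] at h1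
  rw [← h1] at hb'
  refine ⟨c, hc, ?_⟩
  rw [map_mul, map_mul, pow_add, pow_add, mul_mul_mul_comm]
  exact mul_le_mul' hb hb'

section core

variable {k B F E L I : Type*} [Field k] [CharZero k] [Field B] [Field F] [Field E] [Field L]
  [Algebra k B] [Algebra k F] [Algebra k E] [Algebra k L] [Algebra B E] [Algebra B L]
  [Algebra E L] [Algebra F L] [IsScalarTower k B L] [IsScalarTower k F L]
  [IsScalarTower k E L] [IsScalarTower B E L] [Fintype I] [DecidableEq I]
  [Algebra.EssFiniteType k B] [Algebra.EssFiniteType k F] [Algebra.EssFiniteType k E]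
  [Algebra.EssFiniteType k L] [FiniteDimensional E L] [IsGalois E L]
  {n : I → ℕ} {A : I → Type*} [∀ i, Fintype (A i)] [∀ i, DecidableEq (A i)]

/-- **Core theorem** -/
theorem core (hdim : dimension k B + dimension k F + ∑ i, n i = dimension k E)
    (H : ∀ i, A i → Fin (n i + 1) → L) (u : ∀ i, Fin (n i) → L)
    (halg : ∀ a : L, IsAlgebraic (Algebra.adjoin k
      (Set.range (algebraMap B L) ∪ Set.range (algebraMap F L) ∪ ⋃ i, Set.range (u i))) a)
    (β : L) (hβ : IntermediateField.adjoin E {β} = ⊤) (hβB : IsIntegral B β)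
    (hH : ∀ i, GenPos B (H i)) {N : I → ℕ} (hN : ∀ i, 0 < N i) {δ : ∀ i, A i → ℕ}
    (horb : ∀ i, OrbCond B (H i) (u i) (N i) (δ i)) (hδ0 : ∀ i a, 0 < δ i a)
    (hδN : ∀ i a, δ i a < N i) (hlc : ∀ i, (n i + 1) * N i ≤ ∑ a, (N i - δ i a))
    (s : Finset I) (hs : ∀ i ∈ s, (n i + 1) * N i < ∑ a, (N i - δ i a))
    {x : Fin (dimension k B) → B} (hx : IsTranscendenceBasis k x) {m₁ : ℕ} (hm₁ : 1 ≤ m₁)
    {h₀ : B} (hh₀ : h₀ ∈ WOrb k E x m₁) (hh₀ne : h₀ ≠ 0)
    {a b : ℕ} {ξ : Fin a → L} (hξ : AlgebraicIndependent k ξ)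
    (hξ' : ∀ j, (∃ f : B, ξ j = algebraMap B L f ∧ f * h₀ ∈ WOrb k E x m₁) ∨
      ∃ (i : I) (p : ℕ) (P P' : Fin p → Fin (n i + 1) → A i),
        (∀ c, Function.Injective (P c)) ∧ (∀ c, Function.Injective (P' c)) ∧
        (∀ c, ∑ l, occ (P l) c = ∑ l, occ (P' l) c) ∧
        ξ j = (∏ c, brk (H i) (P c)) / ∏ c, brk (H i) (P' c))
    (hb : KodairaGE k F b) : KodairaGE k E (a + b + ∑ i ∈ s, n i) := by
  classical
  obtain ⟨yF, hyF⟩ := exists_tb k F
  obtain ⟨zE, hzE⟩ := exists_tb k E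
  have hdimL : dimension k E = dimension k L := by
    have h1 : IsTranscendenceBasis k (algebraMap E L ∘ zE) := hzE.algebraMap_comp
    have h2 := card_eq_of_isTranscendenceBasis h1
    rwa [Fintype.card_fin] at h2
  have hdim' : dimension k B + dimension k F + ∑ i, n i = dimension k L := hdim.trans hdimL
  have htot : IsTranscendenceBasis k (tot x yF u) := tot_tb u hdim' halg hx hyF
  have hcard : ∀ i, n i + 1 < Fintype.card (A i) := fun i => card_lt (hδ0 i) (hδN i) (hlc i) (hN i)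
  have hne : ∀ i a, lin (H i) (u i) a ≠ 0 := fun i a =>
    lin_ne_zero hx yF htot hH (fun i => (hcard i).le) i a
  obtain ⟨m₂, hm₂, g₀, hg₀, hg₀ne, φ, hφ, hφφ⟩ := hb.exists_coord hyF
  -- the factors
  let 𝒲 : Option (Option I) → ℕ → Set L := fun f m =>
    match f with
    | none => (algebraMap B L) '' WOrb k E x m
    | some none => (algebraMap F L) '' WReg k yF m
    | some (some i) => ArrReg B k (H i) (u i) m
  have hmul : ∀ f m m', ∀ W ∈ 𝒲 f m, ∀ W' ∈ 𝒲 f m', W * W' ∈ 𝒲 f (m + m') := by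
    rintro (_ | _ | i) m m' W hW W' hW'
    · obtain ⟨h, hh, rfl⟩ := hW
      obtain ⟨h', hh', rfl⟩ := hW'
      exact ⟨h * h', WOrb.mul' hh hh', map_mul _ _ _⟩
    · obtain ⟨h, hh, rfl⟩ := hW
      obtain ⟨h', hh', rfl⟩ := hW'
      exact ⟨h * h', WReg.mul' hh hh', map_mul _ _ _⟩
    · exact ArrReg.mul hW hW'
  have hprod : ∀ m : ℕ, ∀ W : Option (Option I) → L, (∀ f, W f ∈ 𝒲 f m) →
      ∏ f, W f ∈ GoodL k E (tot x yF u) m := by
    intro m W hW
    rw [Fintype.prod_option, Fintype.prod_option]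
    obtain ⟨h, hh, hh'⟩ := hW none
    obtain ⟨g, hg, hg'⟩ := hW (some none)
    rw [← hh', ← hg', ← mul_assoc]
    exact prod_mem_GoodL hx hyF β hβ hβB H u hH hne (fun i => (hcard i).le) hh hg
      (fun i => hW (some (some i)))
  have hne𝒲 : ∀ f, ∃ m : ℕ, 1 ≤ m ∧ ∃ W ∈ 𝒲 f m, W ≠ 0 := by
    rintro (_ | _ | i)
    · exact ⟨m₁, hm₁, _, ⟨h₀, hh₀, rfl⟩, by simpa using hh₀ne⟩
    · exact ⟨m₂, hm₂, _, ⟨g₀, hg₀, rfl⟩, by simpa using hg₀ne⟩
    · exact exists_ne_zero_mem_arr (hH i) (hne i) (hN i) (horb i) (hδ0 i) (hδN i) (hlc i)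
  have hrat := fun f₀ θ => mem_ratios_of_factor (a := tot x yF u) 𝒲 hmul hprod hne𝒲 f₀ θ
  have h1 : (1 : L) ∈ Ratios k E (tot x yF u) := by
    refine hrat none 1 ⟨m₁, hm₁, _, ⟨h₀, hh₀, rfl⟩, by simpa using hh₀ne, ?_⟩
    rw [one_mul]
    exact ⟨h₀, hh₀, rfl⟩
  have hbase : ∀ f : B, f * h₀ ∈ WOrb k E x m₁ → algebraMap B L f ∈ Ratios k E (tot x yF u) := by
    intro f hf
    refine hrat none _ ⟨m₁, hm₁, _, ⟨h₀, hh₀, rfl⟩, by simpa using hh₀ne, ?_⟩
    exact ⟨f * h₀, hf, map_mul _ _ _⟩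
  have hF : ∀ j, algebraMap F L (φ j) ∈ Ratios k E (tot x yF u) := by
    intro j
    refine hrat (some none) _ ⟨m₂, hm₂, _, ⟨g₀, hg₀, rfl⟩, by simpa using hg₀ne, ?_⟩
    exact ⟨φ j * g₀, hφφ j, map_mul _ _ _⟩
  have harr : ∀ (i : I) (p : ℕ) (P P' : Fin p → Fin (n i + 1) → A i),
      (∀ c, Function.Injective (P c)) → (∀ c, Function.Injective (P' c)) →
      ((∀ c, ∑ l, occ (P l) c = ∑ l, occ (P' l) c) ∨ (n i + 1) * N i < ∑ a, (N i - δ i a)) →
      (∏ c, gam (H i) (u i) (P c)) / (∏ c, gam (H i) (u i) (P' c)) ∈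
        Ratios k E (tot x yF u) := by
    intro i p P P' hP hP' h
    exact hrat (some (some i)) _ (ratio_mem_arr (hH i) (hne i) (hN i) (horb i) (hδ0 i) (hδN i)
      (hlc i) P P' hP hP' h)
  -- the tuples for the strict factors
  have htup : ∀ i, ∃ (J : Fin (n i + 1) → A i) (c : A i), Function.Injective J ∧
      ∀ r, Function.Injective (Function.update J r c) := by
    intro i
    have h2 : n i + 2 ≤ Fintype.card (A i) := hcard i
    obtain ⟨e⟩ : Nonempty (Fin (n i + 1 + 1) ↪ A i) :=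
      Function.Embedding.nonempty_of_card_le (by rw [Fintype.card_fin]; exact h2)
    refine ⟨fun r => e r.castSucc, e (Fin.last _), ?_, ?_⟩
    · intro r r' hrr
      exact Fin.castSucc_injective _ (e.injective hrr)
    · intro r r' r'' hrr
      by_cases h3 : r' = r <;> by_cases h4 : r'' = r
      · rw [h3, h4]
      · subst h3
        rw [Function.update_self, Function.update_of_ne h4] at hrr
        exact absurd (e.injective hrr).symm (Fin.castSucc_ne_last _)
      · subst h4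
        rw [Function.update_self, Function.update_of_ne h3] at hrr
        exact absurd (e.injective hrr) (Fin.castSucc_ne_last _)
      · rw [Function.update_of_ne h3, Function.update_of_ne h4] at hrr
        exact Fin.castSucc_injective _ (e.injective hrr)
  choose J c hJ hJc using htup
  let ζ : ∀ i, Fin (n i) → L := fun i r =>
    gam (H i) (u i) (J i) / gam (H i) (u i) (Function.update (J i) r.succ (c i))
  have hζmem : ∀ i ∈ s, ∀ r, ζ i r ∈ Ratios k E (tot x yF u) := by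
    intro i hi r
    have := harr i 1 (fun _ => J i) (fun _ => Function.update (J i) r.succ (c i))
      (fun _ => hJ i) (fun _ => hJc i _) (Or.inr (hs i hi))
    simpa using this
  have hζsolve : ∀ i ∈ s, ∀ K₁ : Subfield L, (∀ c : L, IsAlgebraic B c → c ∈ K₁) →
      (∀ r, ζ i r ∈ K₁) → ∀ r, u i r ∈ K₁ := by
    intro i _ K₁ h2 h3
    exact u_mem K₁ (fun a j => h2 _ ((hH i).alg a j)) (J i) (c i) ((hH i).brk_ne _ (hJ i))
      (fun r => (hH i).brk_ne _ (hJc i r)) (hne i) h3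
  -- the elements of `ξ`
  have hbrkalg : ∀ i (Q : Fin (n i + 1) → A i), IsAlgebraic B (brk (H i) Q) := by
    intro i Q
    have h2 : brk (H i) Q ∈ (algebraicClosure B L).toSubfield :=
      brk_mem _ (fun a j => mem_algebraicClosure_iff.mpr ((hH i).alg a j)) Q
    exact mem_algebraicClosure_iff.mp h2
  have hξB : ∀ j, IsAlgebraic B (ξ j) := by
    intro j
    rcases hξ' j with ⟨f, hf, -⟩ | ⟨i, p, P, P', -, -, -, hf⟩
    · rw [hf]
      exact isAlgebraic_algebraMap f
    · rw [hf]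
      have h2 : (∏ c, brk (H i) (P c)) / ∏ c, brk (H i) (P' c) ∈
          (algebraicClosure B L).toSubfield := by
        refine div_mem (prod_mem fun c _ => ?_) (prod_mem fun c _ => ?_)
        · exact mem_algebraicClosure_iff.mpr (hbrkalg i _)
        · exact mem_algebraicClosure_iff.mpr (hbrkalg i _)
      exact mem_algebraicClosure_iff.mp h2
  have hξmem : ∀ j, ξ j ∈ Ratios k E (tot x yF u) := by
    intro j
    rcases hξ' j with ⟨f, hf, hf'⟩ | ⟨i, p, P, P', hP, hP', hocc, hf⟩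
    · rw [hf]
      exact hbase f hf'
    · rw [hf, ← prod_gam_div (hne i) P P' hocc]
      exact harr i p P P' hP hP' (Or.inl hocc)
  -- the independent family
  have hind := tot_indep (L := L) u ζ hdim' halg s hζsolve hξ hξB hφ
  let T : Type _ := Fin a ⊕ (Fin b ⊕ (Σ i : s, Fin (n i)))
  have hcardT : Fintype.card (Fin a ⊕ (Fin b ⊕ (Σ i : s, Fin (n i)))) =
      a + b + ∑ i ∈ s, n i := by
    rw [Fintype.card_sum, Fintype.card_sum, Fintype.card_sigma, Fintype.card_fin,
      Fintype.card_fin, add_assoc]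
    congr 2
    simp only [Fintype.card_fin]
    exact Finset.sum_coe_sort s n
  let e : Fin (a + b + ∑ i ∈ s, n i) ≃ Fin a ⊕ (Fin b ⊕ (Σ i : s, Fin (n i))) :=
    (Fintype.equivFinOfCardEq hcardT).symm
  refine of_good (ι := Fin (dimension k B) ⊕ (Fin (dimension k F) ⊕ (Σ i, Fin (n i)))) htot
    (hind.comp e e.injective) ?_ h1
  intro q
  simp only [Function.comp_apply]
  rcases e q with j | j | ⟨i, r⟩
  · exact hξmem j
  · exact hF j
  · exact hζmem i i.2 r

end core

end Pf72953.Var
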