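import Mathlib
import Pool.Agent.Lib.Pf72953v.Defs

/-!
The orbifold condition for cyclic and Kummer covers.
-/

set_option autoImplicit false
set_option linter.style.haveILetI false

open scoped WithZero
open Pf72953

namespace Pf72953.Var

theorem orbCond_of_cyclic {B L A : Type*} [Field B] [Field L] [Algebra B L] {n : ℕ} [Fintype A]
    {H : A → Fin (n + 1) → L} {u : Fin n → L} {N : ℕ} {δ : A → ℕ} (hN : 0 < N)
    (hδ : ∀ a, 0 < δ a) (hdvd : N ∣ ∑ a, δ a) (hne : ∀ a, lin H u a ≠ 0) (y : L)
    (hy : y ^ N = ∏ a, lin H u a ^ δ a) : OrbCond B H u N δ := by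
  classical
  intro w _ b hmax hlt
  obtain ⟨q, hq⟩ := hdvd
  have hb : w (lin H u b) ≠ 0 := (Valuation.ne_zero_iff w).mpr (hne b)
  have hbpos : 0 < w (lin H u b) := zero_lt_iff.mpr hb
  have key : w (y / lin H u b ^ q) ^ N = ∏ a, w (lin H u a / lin H u b) ^ δ a := by
    rw [← map_pow, div_pow, hy, ← pow_mul, mul_comm q N, ← hq, ← Finset.prod_pow_eq_pow_sum,
      ← Finset.prod_div_distrib, map_prod]
    refine Finset.prod_congr rfl fun a _ => ?_
    rw [← div_pow, map_pow]
  refine ⟨y / lin H u b ^ q, ?_, key.ge⟩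
  have hle : ∀ a, w (lin H u a / lin H u b) ≤ 1 := by
    intro a
    rw [map_div₀, div_le_one₀ hbpos]
    exact hmax a
  obtain ⟨a, ha⟩ := hlt
  have hlt1 : w (lin H u a / lin H u b) < 1 := by
    rw [map_div₀, div_lt_one₀ hbpos]
    exact ha
  have hprod : ∏ a, w (lin H u a / lin H u b) ^ δ a < 1 := by
    rw [← Finset.mul_prod_erase Finset.univ _ (Finset.mem_univ a)]
    calc _ ≤ w (lin H u a / lin H u b) ^ δ a * 1 := by
          refine mul_le_mul' le_rfl ?_
          exact Finset.prod_le_one' fun c _ => pow_le_one' (hle c) _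
      _ = w (lin H u a / lin H u b) ^ δ a := mul_one _
      _ < 1 := pow_lt_one₀ zero_le hlt1 (hδ a).ne'
  rw [← key] at hprod
  by_contra hcon
  rw [not_lt] at hcon
  exact absurd hprod (not_lt.mpr (one_le_pow_of_one_le' hcon N))

theorem orbCond_of_kummer {B L A : Type*} [Field B] [Field L] [Algebra B L] {n : ℕ} [Fintype A]
    {H : A → Fin (n + 1) → L} {u : Fin n → L} {N : ℕ} (hN : 0 < N) (hne : ∀ a, lin H u a ≠ 0)
    (a₀ : A) (y : A → L) (hy : ∀ a, y a ^ N = lin H u a / lin H u a₀) :
    OrbCond B H u N (fun _ => 1) := by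
  classical
  intro w _ b hmax hlt
  obtain ⟨a, ha⟩ := hlt
  have hb : w (lin H u b) ≠ 0 := (Valuation.ne_zero_iff w).mpr (hne b)
  have hbpos : 0 < w (lin H u b) := zero_lt_iff.mpr hb
  have key : w (y a / y b) ^ N = w (lin H u a / lin H u b) := by
    rw [← map_pow, div_pow, hy, hy, div_div_div_cancel_right₀ (hne a₀)]
  have hle : ∀ a, w (lin H u a / lin H u b) ≤ 1 := by
    intro a
    rw [map_div₀, div_le_one₀ hbpos]
    exact hmax a
  have hlt1 : w (lin H u a / lin H u b) < 1 := by
    rw [map_div₀, div_lt_one₀ hbpos]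
    exact ha
  refine ⟨y a / y b, ?_, ?_⟩
  · by_contra hcon
    rw [not_lt] at hcon
    rw [← key] at hlt1
    exact absurd hlt1 (not_lt.mpr (one_le_pow_of_one_le' hcon N))
  · rw [key, ← Finset.mul_prod_erase Finset.univ _ (Finset.mem_univ a), pow_one]
    calc _ ≤ w (lin H u a / lin H u b) * 1 := by
          refine mul_le_mul' le_rfl ?_
          exact Finset.prod_le_one' fun c _ => pow_le_one' (hle c) _
      _ = w (lin H u a / lin H u b) := mul_one _

theorem lin_map {A M L : Type*} [Field M] [Field L] [Algebra M L] {n : ℕ}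
    (H : A → Fin (n + 1) → M) (u : Fin n → M) (a : A) :
    lin (fun a j => algebraMap M L (H a j)) (fun j => algebraMap M L (u j)) a =
      algebraMap M L (lin H u a) := by
  simp [lin]

theorem brk_map {A M L : Type*} [Field M] [Field L] [Algebra M L] {n : ℕ}
    (H : A → Fin (n + 1) → M) (J : Fin (n + 1) → A) :
    brk (fun a j => algebraMap M L (H a j)) J = algebraMap M L (brk H J) := by
  rw [brk, brk, RingHom.map_det]
  rfl

theorem OrbCond.map {B M L A : Type*} [Field B] [Field M] [Field L] [Algebra B M] [Algebra B L]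
    [Algebra M L] [IsScalarTower B M L] {n : ℕ} [Fintype A] {H : A → Fin (n + 1) → M}
    {u : Fin n → M} {N : ℕ} {δ : A → ℕ} (h : OrbCond B H u N δ) :
    OrbCond B (fun a j => algebraMap M L (H a j)) (fun j => algebraMap M L (u j)) N δ := by
  intro w hw b hmax hlt
  simp only [lin_map] at hmax hlt ⊢
  obtain ⟨t, ht, ht'⟩ := h (w.comap (algebraMap M L)) (fun c hc => by
    rw [Valuation.comap_apply, ← IsScalarTower.algebraMap_apply B M L]
    exact hw c hc) b hmax hlt
  refine ⟨algebraMap M L t, ht, ?_⟩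
  simp only [Valuation.comap_apply, map_div₀] at ht' ⊢
  exact ht'

theorem GenPos.map {B M L A : Type*} [Field B] [Field M] [Field L] [Algebra B M] [Algebra B L]
    [Algebra M L] [IsScalarTower B M L] {n : ℕ} {H : A → Fin (n + 1) → M} (h : GenPos B H) :
    GenPos B (fun a j => algebraMap M L (H a j)) := by
  refine ⟨fun a j => (h.alg a j).algebraMap, fun J hJ => ?_⟩
  rw [brk_map]
  simpa using h.brk_ne J hJ

end Pf72953.Var
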