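import Mathlib
import Pool.Agent.Lib.Pf72953.Reduction
import Pool.Agent.Lib.Pf72953v.CoreV
import Pool.Agent.Lib.Pf72953v.Cyclic

/-!
Reduction from a finite base change to a Galois base change.
-/

set_option autoImplicit false
set_option linter.style.haveILetI false

open scoped WithZero
open Polynomial
open Pf72953

namespace Pf72953.Var

/-- a finite extension generated by a set is generated by a finite subset -/
theorem exists_finite_generators {E M : Type*} [Field E] [Field M] [Algebra E M]
    [FiniteDimensional E M] (S : Set M) (hS : IntermediateField.adjoin E S = ⊤) :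
    ∃ T : Finset M, (T : Set M) ⊆ S ∧ IntermediateField.adjoin E (T : Set M) = ⊤ := by
  classical
  obtain ⟨G, hG⟩ := IntermediateField.fg_top E M
  have hmem : ∀ y : M, y ∈ IntermediateField.adjoin E S := fun y => by
    rw [hS]; exact IntermediateField.mem_top
  choose t ht ht' using fun y : M => IntermediateField.exists_finset_of_mem_adjoin (hmem y)
  refine ⟨G.biUnion t, ?_, ?_⟩
  · intro a ha
    rw [Finset.mem_coe, Finset.mem_biUnion] at ha
    obtain ⟨y, _, hy⟩ := ha
    exact ht y hy
  · rw [eq_top_iff, ← hG, IntermediateField.adjoin_le_iff]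
    intro y hy
    refine IntermediateField.adjoin.mono E _ _ ?_ (ht' y)
    intro a ha
    exact Finset.mem_coe.mpr (Finset.mem_biUnion.mpr ⟨y, hy, ha⟩)

section reduction

variable {k B F E M I : Type*} [Field k] [CharZero k] [Field B] [Field F] [Field E] [Field M]
  [Algebra k B] [Algebra k F] [Algebra k E] [Algebra k M] [Algebra B E] [Algebra B M]
  [Algebra E M] [Algebra F M] [IsScalarTower k B M] [IsScalarTower k F M]
  [IsScalarTower k E M] [IsScalarTower B E M] [Fintype I] [DecidableEq I]
  [Algebra.EssFiniteType k B] [Algebra.EssFiniteType k F] [Algebra.EssFiniteType k E]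
  [FiniteDimensional E M]
  {n : I → ℕ} {A : I → Type*} [∀ i, Fintype (A i)] [∀ i, DecidableEq (A i)]

theorem of_baseChange_aux (Ω : Type*) [Field Ω] [IsAlgClosed Ω] [Algebra M Ω] (S : Set M) (hSB : ∀ s ∈ S, IsAlgebraic B s)
    (hS : IntermediateField.adjoin E S = ⊤)
    (hdim : dimension k B + dimension k F + ∑ i, n i = dimension k E)
    (H : ∀ i, A i → Fin (n i + 1) → M) (u : ∀ i, Fin (n i) → M)
    (halg : ∀ a : M, IsAlgebraic (Algebra.adjoin k
      (Set.range (algebraMap B M) ∪ Set.range (algebraMap F M) ∪ ⋃ i, Set.range (u i))) a)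
    (hH : ∀ i, GenPos B (H i)) {N : I → ℕ} (hN : ∀ i, 0 < N i) {δ : ∀ i, A i → ℕ}
    (horb : ∀ i, OrbCond B (H i) (u i) (N i) (δ i)) (hδ0 : ∀ i a, 0 < δ i a)
    (hδN : ∀ i a, δ i a < N i) (hlc : ∀ i, (n i + 1) * N i ≤ ∑ a, (N i - δ i a))
    (s : Finset I) (hs : ∀ i ∈ s, (n i + 1) * N i < ∑ a, (N i - δ i a))
    {x : Fin (dimension k B) → B} (hx : IsTranscendenceBasis k x) {m₁ : ℕ} (hm₁ : 1 ≤ m₁)
    {h₀ : B} (hh₀ : h₀ ∈ WOrb k E x m₁) (hh₀ne : h₀ ≠ 0)
    {a b : ℕ} {ξ : Fin a → M} (hξ : AlgebraicIndependent k ξ)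
    (hξ' : ∀ j, (∃ f : B, ξ j = algebraMap B M f ∧ f * h₀ ∈ WOrb k E x m₁) ∨
      ∃ (i : I) (p : ℕ) (P P' : Fin p → Fin (n i + 1) → A i),
        (∀ c, Function.Injective (P c)) ∧ (∀ c, Function.Injective (P' c)) ∧
        (∀ c, ∑ l, occ (P l) c = ∑ l, occ (P' l) c) ∧
        ξ j = (∏ c, brk (H i) (P c)) / ∏ c, brk (H i) (P' c))
    (hb : KodairaGE k F b) : KodairaGE k E (a + b + ∑ i ∈ s, n i) := by
  classical
  obtain ⟨T, hTS, hT⟩ := exists_finite_generators S hS
  haveI : CharZero B := charZero_of_injective_algebraMap (algebraMap k B).injective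
  haveI : CharZero E := charZero_of_injective_algebraMap (algebraMap k E).injective
  letI : Algebra k Ω := ((algebraMap M Ω).comp (algebraMap k M)).toAlgebra
  letI : Algebra B Ω := ((algebraMap M Ω).comp (algebraMap B M)).toAlgebra
  letI : Algebra E Ω := ((algebraMap M Ω).comp (algebraMap E M)).toAlgebra
  haveI : IsScalarTower k M Ω := IsScalarTower.of_algebraMap_eq fun _ => rfl
  haveI : IsScalarTower B M Ω := IsScalarTower.of_algebraMap_eq fun _ => rfl
  haveI : IsScalarTower E M Ω := IsScalarTower.of_algebraMap_eq fun _ => rfl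
  haveI : IsScalarTower k B Ω := IsScalarTower.of_algebraMap_eq fun c => by
    rw [IsScalarTower.algebraMap_apply k M Ω, IsScalarTower.algebraMap_apply B M Ω,
      IsScalarTower.algebraMap_apply k B M]
  haveI : IsScalarTower k E Ω := IsScalarTower.of_algebraMap_eq fun c => by
    rw [IsScalarTower.algebraMap_apply k M Ω, IsScalarTower.algebraMap_apply E M Ω,
      IsScalarTower.algebraMap_apply k E M]
  haveI : IsScalarTower B E Ω := IsScalarTower.of_algebraMap_eq fun c => by
    rw [IsScalarTower.algebraMap_apply B M Ω, IsScalarTower.algebraMap_apply E M Ω,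
      IsScalarTower.algebraMap_apply B E M]
  -- the splitting polynomial
  set p : B[X] := ∏ s ∈ T, minpoly B s with hp
  have hpmonic : p.Monic := monic_prod_of_monic _ _ fun s hs =>
    minpoly.monic (hSB s (hTS hs)).isIntegral
  have hroot : ∀ s ∈ T, algebraMap M Ω s ∈ p.rootSet Ω := by
    intro s hs
    rw [mem_rootSet]
    refine ⟨hpmonic.ne_zero, ?_⟩
    rw [aeval_algebraMap_apply, hp, map_prod, Finset.prod_eq_zero hs (minpoly.aeval B s), map_zero]
  haveI hB₁ : IsSplittingField B (IntermediateField.adjoin B (p.rootSet Ω)) p :=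
    IntermediateField.adjoin_rootSet_isSplittingField (IsAlgClosed.splits _)
  haveI : FiniteDimensional B (IntermediateField.adjoin B (p.rootSet Ω)) :=
    IsSplittingField.finiteDimensional _ p
  obtain ⟨β₁, hβ₁⟩ := Field.exists_primitive_element B (IntermediateField.adjoin B (p.rootSet Ω))
  set q : E[X] := p.map (algebraMap B E) with hq
  have hrootq : q.rootSet Ω = p.rootSet Ω := by
    ext s
    rw [mem_rootSet, mem_rootSet, hq, aeval_map_algebraMap]
    simp [hpmonic.ne_zero]
  set L := IntermediateField.adjoin E (q.rootSet Ω) with hL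
  haveI hLsplit : IsSplittingField E L q :=
    IntermediateField.adjoin_rootSet_isSplittingField (IsAlgClosed.splits _)
  haveI : FiniteDimensional E L := IsSplittingField.finiteDimensional _ q
  haveI : Normal E L := Normal.of_isSplittingField q
  haveI : IsGalois E L := ⟨⟩
  haveI tBLΩ : IsScalarTower B L Ω := IsScalarTower.of_algebraMap_eq fun b => rfl
  haveI tkLΩ : IsScalarTower k L Ω := IsScalarTower.of_algebraMap_eq fun b => rfl
  haveI tkBL : IsScalarTower k B L := IsScalarTower.of_algebraMap_eq fun c => Subtype.ext (by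
    change algebraMap k Ω c = algebraMap B Ω (algebraMap k B c)
    rw [← IsScalarTower.algebraMap_apply k B Ω])
  haveI tkEL : IsScalarTower k E L := IsScalarTower.of_algebraMap_eq fun c => Subtype.ext (by
    change algebraMap k Ω c = algebraMap E Ω (algebraMap k E c)
    rw [← IsScalarTower.algebraMap_apply k E Ω])
  haveI tBEL : IsScalarTower B E L := IsScalarTower.of_algebraMap_eq fun c => Subtype.ext (by
    change algebraMap B Ω c = algebraMap E Ω (algebraMap B E c)
    rw [← IsScalarTower.algebraMap_apply B E Ω])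
  -- the primitive element
  have hβmem : ((β₁ : IntermediateField.adjoin B (p.rootSet Ω)) : Ω) ∈ L := by
    have h1 : IntermediateField.adjoin B (p.rootSet Ω) ≤ L.restrictScalars B := by
      rw [IntermediateField.adjoin_le_iff]
      intro s hs
      rw [← hrootq] at hs
      exact IntermediateField.subset_adjoin E _ hs
    exact h1 β₁.2
  set β : L := ⟨(β₁ : Ω), hβmem⟩ with hβ
  have hβB : IsIntegral B β := by
    have h1 : IsIntegral B β₁ := Algebra.IsIntegral.isIntegral β₁
    have h2 : IsIntegral B (β₁ : Ω) := h1.map (IntermediateField.val _)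
    have h3 : IsIntegral B ((IsScalarTower.toAlgHom B L Ω) β) := h2
    exact (isIntegral_algHom_iff (IsScalarTower.toAlgHom B L Ω)
      (algebraMap L Ω).injective).mp h3
  have hβtop : IntermediateField.adjoin E {β} = ⊤ := by
    have h1 : L ≤ IntermediateField.adjoin E {(β₁ : Ω)} := by
      rw [hL, IntermediateField.adjoin_le_iff, hrootq]
      intro s hs
      have h2 : IntermediateField.adjoin B (p.rootSet Ω) ≤
          (IntermediateField.adjoin E {(β₁ : Ω)}).restrictScalars B := by
        have h3 : IntermediateField.adjoin B {(β₁ : Ω)} =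
            IntermediateField.adjoin B (p.rootSet Ω) := by
          have h4 := congrArg (IntermediateField.map (IntermediateField.val
            (IntermediateField.adjoin B (p.rootSet Ω)))) hβ₁
          rw [IntermediateField.adjoin_map, Set.image_singleton,
            ← AlgHom.fieldRange_eq_map, IntermediateField.fieldRange_val] at h4
          exact h4
        refine h3.symm.le.trans ?_
        rw [IntermediateField.adjoin_le_iff, Set.singleton_subset_iff]
        exact IntermediateField.subset_adjoin E _ (Set.mem_singleton _)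
      exact h2 (IntermediateField.subset_adjoin B _ hs)
    have h5 : IntermediateField.map L.val (IntermediateField.adjoin E {β}) =
        IntermediateField.map L.val ⊤ := by
      rw [IntermediateField.adjoin_map, Set.image_singleton,
        ← AlgHom.fieldRange_eq_map, IntermediateField.fieldRange_val]
      refine le_antisymm ?_ h1
      rw [IntermediateField.adjoin_le_iff, Set.singleton_subset_iff]
      exact hβmem
    exact IntermediateField.map_injective L.val h5
  -- the embedding `M → L`
  have hML : ∀ y : M, algebraMap M Ω y ∈ L := by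
    have h1 : IntermediateField.adjoin E (T : Set M) ≤
        L.comap (IsScalarTower.toAlgHom E M Ω) := by
      rw [IntermediateField.adjoin_le_iff]
      intro s hs
      change algebraMap M Ω s ∈ L
      refine IntermediateField.subset_adjoin E _ ?_
      rw [hrootq]
      exact hroot s hs
    rw [hT] at h1
    intro y
    exact h1 IntermediateField.mem_top
  let jM : M →+* L := (algebraMap M Ω).codRestrict L.toSubalgebra.toSubring hML
  letI : Algebra M L := jM.toAlgebra
  letI : Algebra F L := ((algebraMap M L).comp (algebraMap F M)).toAlgebra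
  haveI tFML : IsScalarTower F M L := IsScalarTower.of_algebraMap_eq fun _ => rfl
  haveI tkML : IsScalarTower k M L := IsScalarTower.of_algebraMap_eq fun c => Subtype.ext rfl
  haveI tBML : IsScalarTower B M L := IsScalarTower.of_algebraMap_eq fun c => Subtype.ext rfl
  haveI tEML : IsScalarTower E M L := IsScalarTower.of_algebraMap_eq fun c => Subtype.ext rfl
  haveI : IsScalarTower k F L := IsScalarTower.of_algebraMap_eq fun c => by
    rw [IsScalarTower.algebraMap_apply k M L, IsScalarTower.algebraMap_apply F M L,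
      IsScalarTower.algebraMap_apply k F M]
  haveI : Algebra.EssFiniteType k L := Algebra.EssFiniteType.comp k E L
  haveI : FiniteDimensional M L := Module.Finite.of_restrictScalars_finite E M L
  -- algebraicity
  have halgL : ∀ c : L, IsAlgebraic (Algebra.adjoin k
      (Set.range (algebraMap B L) ∪ Set.range (algebraMap F L) ∪
        ⋃ i, Set.range (fun r => algebraMap M L (u i r)))) c := by
    intro c
    set AM := Algebra.adjoin k
      (Set.range (algebraMap B M) ∪ Set.range (algebraMap F M) ∪ ⋃ i, Set.range (u i)) with hAM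
    set AL := Algebra.adjoin k
      (Set.range (algebraMap B L) ∪ Set.range (algebraMap F L) ∪
        ⋃ i, Set.range (fun r => algebraMap M L (u i r))) with hAL
    haveI : Algebra.IsAlgebraic AM M := ⟨halg⟩
    haveI : Algebra.IsAlgebraic M L := Algebra.IsAlgebraic.of_finite M L
    haveI : IsScalarTower AM M L := IsScalarTower.of_algebraMap_eq fun _ => rfl
    have h1 : Algebra.IsAlgebraic AM L := Algebra.IsAlgebraic.trans AM M L
    have h2 : AM ≤ AL.comap (IsScalarTower.toAlgHom k M L) := by
      rw [hAM, Algebra.adjoin_le_iff]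
      rintro y ((⟨b, rfl⟩ | ⟨b, rfl⟩) | hy)
      · refine Algebra.subset_adjoin (Or.inl (Or.inl ⟨b, ?_⟩))
        exact IsScalarTower.algebraMap_apply B M L b
      · refine Algebra.subset_adjoin (Or.inl (Or.inr ⟨b, ?_⟩))
        exact IsScalarTower.algebraMap_apply F M L b
      · rw [Set.mem_iUnion] at hy
        obtain ⟨i, r, rfl⟩ := hy
        refine Algebra.subset_adjoin (Or.inr (Set.mem_iUnion.mpr ⟨i, r, rfl⟩))
    let φ : AM →+* AL := ((algebraMap M L).comp AM.val.toRingHom).codRestrict AL.toSubring
      (fun a => h2 a.2)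
    letI : Algebra AM AL := φ.toAlgebra
    haveI : IsScalarTower AM AL L := IsScalarTower.of_algebraMap_eq fun a => rfl
    refine (h1.isAlgebraic c).extendScalars ?_
    intro a b hab
    have h4 := congrArg (fun c : AL => (c : L)) hab
    exact Subtype.ext ((algebraMap M L).injective h4)
  refine core (L := L) hdim (fun i a j => algebraMap M L (H i a j))
    (fun i j => algebraMap M L (u i j)) halgL β hβtop hβB (fun i => (hH i).map) hN
    (fun i => (horb i).map) hδ0 hδN hlc s hs hx hm₁ hh₀ hh₀ne
    (ξ := fun j => algebraMap M L (ξ j)) ?_ ?_ hb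
  · exact hξ.map' (f := IsScalarTower.toAlgHom k M L) (algebraMap M L).injective
  · intro j
    rcases hξ' j with ⟨f, hf, hf'⟩ | ⟨i, p, P, P', hP, hP', hocc, hf⟩
    · refine Or.inl ⟨f, ?_, hf'⟩
      rw [hf, ← IsScalarTower.algebraMap_apply B M L]
    · refine Or.inr ⟨i, p, P, P', hP, hP', hocc, ?_⟩
      rw [hf, map_div₀, map_prod, map_prod]
      simp only [brk_map]

theorem of_baseChange (S : Set M) (hSB : ∀ s ∈ S, IsAlgebraic B s)
    (hS : IntermediateField.adjoin E S = ⊤)
    (hdim : dimension k B + dimension k F + ∑ i, n i = dimension k E)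
    (H : ∀ i, A i → Fin (n i + 1) → M) (u : ∀ i, Fin (n i) → M)
    (halg : ∀ a : M, IsAlgebraic (Algebra.adjoin k
      (Set.range (algebraMap B M) ∪ Set.range (algebraMap F M) ∪ ⋃ i, Set.range (u i))) a)
    (hH : ∀ i, GenPos B (H i)) {N : I → ℕ} (hN : ∀ i, 0 < N i) {δ : ∀ i, A i → ℕ}
    (horb : ∀ i, OrbCond B (H i) (u i) (N i) (δ i)) (hδ0 : ∀ i a, 0 < δ i a)
    (hδN : ∀ i a, δ i a < N i) (hlc : ∀ i, (n i + 1) * N i ≤ ∑ a, (N i - δ i a))
    (s : Finset I) (hs : ∀ i ∈ s, (n i + 1) * N i < ∑ a, (N i - δ i a))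
    {x : Fin (dimension k B) → B} (hx : IsTranscendenceBasis k x) {m₁ : ℕ} (hm₁ : 1 ≤ m₁)
    {h₀ : B} (hh₀ : h₀ ∈ WOrb k E x m₁) (hh₀ne : h₀ ≠ 0)
    {a b : ℕ} {ξ : Fin a → M} (hξ : AlgebraicIndependent k ξ)
    (hξ' : ∀ j, (∃ f : B, ξ j = algebraMap B M f ∧ f * h₀ ∈ WOrb k E x m₁) ∨
      ∃ (i : I) (p : ℕ) (P P' : Fin p → Fin (n i + 1) → A i),
        (∀ c, Function.Injective (P c)) ∧ (∀ c, Function.Injective (P' c)) ∧
        (∀ c, ∑ l, occ (P l) c = ∑ l, occ (P' l) c) ∧
        ξ j = (∏ c, brk (H i) (P c)) / ∏ c, brk (H i) (P' c))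
    (hb : KodairaGE k F b) : KodairaGE k E (a + b + ∑ i ∈ s, n i) :=
  of_baseChange_aux (AlgebraicClosure M) S hSB hS hdim H u halg hH hN horb hδ0 hδN hlc s hs hx hm₁
    hh₀ hh₀ne hξ hξ' hb

end reduction

end Pf72953.Var
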